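import Pool.Agent.Work.MP_1ce445_n3.Interface

/-! Block CMA (helper43): the transversal bound for hypergraphs of rank 3. -/

namespace Pool.Agent.Work.MP_1ce445_n3

open Finset Pool.Agent.Work.MP_1ce445_co_56 Pool.Agent.Work.MP_1ce445_lin

section CMA

variable {X ι : Type} [DecidableEq X] [DecidableEq ι] {e : ι → Finset X} {J : Finset ι}

theorem CMA_only {x : X} {i g k : ι} (h2 : dj e J x ≤ 2) (hi : i ∈ J) (hg : g ∈ J) (hig : i ≠ g)
    (hxi : x ∈ e i) (hxg : x ∈ e g) (hk : k ∈ J) (hxk : x ∈ e k) : k = i ∨ k = g := by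
  by_contra h
  push Not at h
  have hs : ({i, g, k} : Finset ι) ⊆ J.filter (fun i => x ∈ e i) := by
    intro l hl
    simp only [mem_insert, mem_singleton] at hl
    rw [mem_filter]
    rcases hl with rfl | rfl | rfl
    exacts [⟨hi, hxi⟩, ⟨hg, hxg⟩, ⟨hk, hxk⟩]
  have hc : ({i, g, k} : Finset ι).card = 3 := by
    rw [card_insert_of_notMem, card_insert_of_notMem, card_singleton]
    · simpa using Ne.symm h.2
    · simp only [mem_insert, mem_singleton, not_or]
      exact ⟨hig, Ne.symm h.1⟩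
  have := card_le_card hs
  unfold dj at h2
  omega

theorem CMA_one {x : X} {g : ι} (hg : g ∈ J) (hxg : x ∈ e g)
    (h : ∀ k ∈ J, x ∈ e k → k = g) : dj e J x = 1 := by
  have : J.filter (fun i => x ∈ e i) = {g} := by
    ext k
    rw [mem_filter, mem_singleton]
    exact ⟨fun hk => h k hk.1 hk.2, fun hk => hk ▸ ⟨hg, hxg⟩⟩
  unfold dj
  rw [this, card_singleton]

theorem CMA_two {x : X} {i g : ι} (h2 : dj e J x ≤ 2) (hi : i ∈ J) (hg : g ∈ J) (hig : i ≠ g)
    (hxi : x ∈ e i) (hxg : x ∈ e g) : dj e J x = 2 := by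
  have hs : ({i, g} : Finset ι) ⊆ J.filter (fun i => x ∈ e i) := by
    intro l hl
    simp only [mem_insert, mem_singleton] at hl
    rw [mem_filter]
    rcases hl with rfl | rfl
    exacts [⟨hi, hxi⟩, ⟨hg, hxg⟩]
  have hc := card_le_card hs
  rw [card_pair hig] at hc
  unfold dj at h2 ⊢
  omega

theorem CMA_mono {J' : Finset ι} (h : J' ⊆ J) (x : X) : dj e J' x ≤ dj e J x :=
  card_le_card (filter_subset_filter _ h)

theorem CMA_nice {J' : Finset ι} (hN : Nice e J) (h : J' ⊆ J) : Nice e J' where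
  three := fun i hi => hN.three i (h hi)
  two := fun x => (CMA_mono h x).trans (hN.two x)
  lin := fun i hi j hj => hN.lin i (h hi) j (h hj)

/-- removal of two members with a common element -/
theorem CMA_pair (hCST : Stmt_CST) (h3 : ∀ i ∈ J, (e i).card = 3) {i j : ι} (hi : i ∈ J)
    (hj : j ∈ J) (hij : i ≠ j) {y : X} (hyi : y ∈ e i) (hyj : y ∈ e j) (Z : Finset X) (n' : ℕ)
    (hZ : Z ⊆ J.biUnion e) (hZ' : ∀ k ∈ J, k ≠ i → k ≠ j → ∀ z ∈ Z, z ∉ e k)
    (hT : HT e ((J.erase i).erase j) n') (hc : 4 ≤ n' + Z.card + 2) : HT e J 0 := by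
  refine hCST X ι e J ((J.erase i).erase j) {y} Z 0 n' ?_ ?_ hZ ?_ hT ?_
  · exact (erase_subset _ _).trans (erase_subset _ _)
  · intro k hk hk'
    have : k = i ∨ k = j := by
      by_contra hn
      push Not at hn
      exact hk' (mem_erase.2 ⟨hn.2, mem_erase.2 ⟨hn.1, hk⟩⟩)
    refine ⟨y, mem_inter.2 ⟨?_, mem_singleton_self _⟩⟩
    rcases this with rfl | rfl
    exacts [hyi, hyj]
  · intro k hk z hz
    rw [mem_erase, mem_erase] at hk
    exact hZ' k hk.2.2 hk.2.1 hk.1 z hz
  · have hs : J \ ((J.erase i).erase j) = {i, j} := by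
      ext k
      simp only [mem_sdiff, mem_erase, mem_insert, mem_singleton, not_and]
      constructor
      · rintro ⟨hk, h⟩
        by_contra hn
        push Not at hn
        exact h hn.2 hn.1 hk
      · rintro (rfl | rfl)
        · exact ⟨hi, fun _ h => absurd rfl h⟩
        · exact ⟨hj, fun h => absurd rfl h⟩
    rw [hs, sum_pair hij, h3 i hi, h3 j hj, card_singleton]
    omega

/-- removal of one member -/
theorem CMA_single (hCST : Stmt_CST) {i : ι} (hi : i ∈ J) {y : X} (hyi : y ∈ e i)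
    (hZ' : ∀ k ∈ J, k ≠ i → ∀ z ∈ e i, z ∉ e k)
    (hT : HT e (J.erase i) 0) (hc : 2 ≤ (e i).card ∧ (e i).card ≤ 3) : HT e J 0 := by
  refine hCST X ι e J (J.erase i) {y} (e i) 0 0 (erase_subset _ _) ?_ ?_ ?_ hT ?_
  · intro k hk hk'
    have : k = i := by
      by_contra hn
      exact hk' (mem_erase.2 ⟨hn, hk⟩)
    exact ⟨y, mem_inter.2 ⟨this ▸ hyi, mem_singleton_self _⟩⟩
  · exact subset_biUnion_of_mem e hi
  · intro k hk z hz
    rw [mem_erase] at hk
    exact hZ' k hk.2 hk.1 z hz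
  · have hs : J \ (J.erase i) = {i} := by
      ext k
      simp only [mem_sdiff, mem_erase, mem_singleton, not_and]
      constructor
      · rintro ⟨hk, h⟩
        by_contra hn
        exact h hn hk
      · rintro rfl
        exact ⟨hi, fun h => absurd rfl h⟩
    rw [hs, sum_singleton, card_singleton]
    omega

theorem CMA_ssub {i j : ι} (hi : i ∈ J) : (J.erase i).erase j ⊂ J :=
  lt_of_le_of_lt (erase_subset _ _) (erase_ssubset hi)

theorem CMA_first (hCST : Stmt_CST) (hJ : ∀ i ∈ J, 1 ≤ (e i).card ∧ (e i).card ≤ 3)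
    (ih0 : ∀ J', J' ⊂ J → HT e J' 0) (ih1 : ∀ J', J' ⊂ J → Nice e J' → PB e J' → HT e J' 1) :
    HT e J 0 := by
  rcases J.eq_empty_or_nonempty with hJe | hne
  · subst hJe
    exact ⟨∅, by simp, by simp⟩
  by_cases h1 : ∃ x, 3 ≤ ∑ i ∈ J.filter (fun i => x ∈ e i), (4 - (e i).card)
  · obtain ⟨x, hx⟩ := h1
    have hex : ∃ i ∈ J, x ∈ e i := by
      by_contra hn
      push Not at hn
      rw [filter_false_of_mem hn, sum_empty] at hx
      omega
    obtain ⟨i0, hi0, hxi0⟩ := hex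
    refine hCST X ι e J (J.filter (fun i => x ∉ e i)) {x} {x} 0 0 (filter_subset _ _) ?_ ?_ ?_
      (ih0 _ ?_) ?_
    · intro i hi hi'
      rw [mem_filter, not_and, not_not] at hi'
      exact ⟨x, mem_inter.2 ⟨hi' hi, mem_singleton_self _⟩⟩
    · rw [singleton_subset_iff, mem_biUnion]
      exact ⟨i0, hi0, hxi0⟩
    · intro i hi z hz
      rw [mem_singleton] at hz
      rw [mem_filter] at hi
      rw [hz]
      exact hi.2
    · refine ⟨filter_subset _ _, fun h => ?_⟩
      exact (mem_filter.1 (h hi0)).2 hxi0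
    · have hs : J \ (J.filter (fun i => x ∉ e i)) = J.filter (fun i => x ∈ e i) := by
        ext k
        simp only [mem_sdiff, mem_filter, not_and, not_not]
        exact ⟨fun h => ⟨h.1, h.2 h.1⟩, fun h => ⟨h.1, fun _ => h.2⟩⟩
      rw [hs, card_singleton]
      omega
  push Not at h1
  have hpos : ∀ i ∈ J, ∃ x, x ∈ e i := fun i hi => card_pos.1 (by have := hJ i hi; omega)
  have hge2 : ∀ i ∈ J, 2 ≤ (e i).card := by
    intro i hi
    obtain ⟨x, hx⟩ := hpos i hi
    have h2 := single_le_sum (f := fun i => 4 - (e i).card) (fun _ _ => Nat.zero_le _)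
      (mem_filter.2 ⟨hi, hx⟩ : i ∈ J.filter (fun i => x ∈ e i))
    have h3 := h1 x
    omega
  by_cases h2 : ∃ i ∈ J, (e i).card = 2
  · obtain ⟨i, hi, hc⟩ := h2
    obtain ⟨y, hy⟩ := hpos i hi
    refine CMA_single hCST hi hy ?_ (ih0 _ (erase_ssubset hi)) (by omega)
    intro k hk hki z hz hzk
    have hs : ({i, k} : Finset ι) ⊆ J.filter (fun i => z ∈ e i) := by
      intro l hl
      simp only [mem_insert, mem_singleton] at hl
      rw [mem_filter]
      rcases hl with rfl | rfl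
      exacts [⟨hi, hz⟩, ⟨hk, hzk⟩]
    have h3 := sum_le_sum_of_subset (f := fun i => 4 - (e i).card) hs
    rw [sum_pair (Ne.symm hki)] at h3
    have h4 := h1 z
    have h5 := (hJ k hk).2
    omega
  push Not at h2
  have h3 : ∀ i ∈ J, (e i).card = 3 := fun i hi => by
    have a1 := hge2 i hi
    have a2 := h2 i hi
    have a3 := (hJ i hi).2
    omega
  have hdeg : ∀ x, dj e J x ≤ 2 := by
    intro x
    have h4 := h1 x
    have h5 : ∑ i ∈ J.filter (fun i => x ∈ e i), (4 - (e i).card) = dj e J x := by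
      unfold dj
      rw [card_eq_sum_ones]
      refine sum_congr rfl fun i hi => ?_
      rw [h3 i (mem_filter.1 hi).1]
    omega
  -- all members have a partner at each of their elements, or not
  by_cases h4 : ∃ i ∈ J, ∃ x ∈ e i, ∀ k ∈ J, x ∈ e k → k = i
  · obtain ⟨i, hi, x, hx, hxo⟩ := h4
    by_cases h5 : ∃ y ∈ e i, ∃ j ∈ J, j ≠ i ∧ y ∈ e j
    · obtain ⟨y, hy, j, hj, hji, hyj⟩ := h5
      have hxy : x ≠ y := fun h => hji (hxo j hj (h ▸ hyj))
      refine CMA_pair hCST h3 hi hj (Ne.symm hji) hy hyj {x, y} 0 ?_ ?_ (ih0 _ (CMA_ssub hi)) ?_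
      · intro z hz
        rw [mem_biUnion]
        simp only [mem_insert, mem_singleton] at hz
        rcases hz with rfl | rfl
        exacts [⟨i, hi, hx⟩, ⟨i, hi, hy⟩]
      · intro k hk hki hkj z hz hzk
        simp only [mem_insert, mem_singleton] at hz
        rcases hz with rfl | rfl
        · exact hki (hxo k hk hzk)
        · rcases CMA_only (hdeg z) hi hj (Ne.symm hji) hy hyj hk hzk with h | h
          exacts [hki h, hkj h]
      · rw [card_pair hxy]
    · push Not at h5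
      refine CMA_single hCST hi hx ?_ (ih0 _ (erase_ssubset hi)) (by have := h3 i hi; omega)
      intro k hk hki z hz
      exact h5 z hz k hk hki
  push Not at h4
  by_cases h5 : ∃ i ∈ J, ∃ j ∈ J, i ≠ j ∧ 1 < (e i ∩ e j).card
  · obtain ⟨i, hi, j, hj, hij, hc⟩ := h5
    obtain ⟨y, hy, y', hy', hyy⟩ := one_lt_card.1 hc
    rw [mem_inter] at hy hy'
    refine CMA_pair hCST h3 hi hj hij hy.1 hy.2 {y, y'} 0 ?_ ?_ (ih0 _ (CMA_ssub hi)) ?_
    · intro z hz
      rw [mem_biUnion]
      simp only [mem_insert, mem_singleton] at hz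
      rcases hz with rfl | rfl
      exacts [⟨i, hi, hy.1⟩, ⟨i, hi, hy'.1⟩]
    · intro k hk hki hkj z hz hzk
      simp only [mem_insert, mem_singleton] at hz
      rcases hz with rfl | rfl
      · rcases CMA_only (hdeg z) hi hj hij hy.1 hy.2 hk hzk with h | h
        exacts [hki h, hkj h]
      · rcases CMA_only (hdeg z) hi hj hij hy'.1 hy'.2 hk hzk with h | h
        exacts [hki h, hkj h]
    · rw [card_pair hyy]
  push Not at h5
  have hN : Nice e J := ⟨h3, hdeg, h5⟩
  obtain ⟨i, hi⟩ := hne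
  obtain ⟨x, hx⟩ := hpos i hi
  obtain ⟨j, hj, hxj, hji⟩ := h4 i hi x hx
  have hsub : (J.erase i).erase j ⊂ J := CMA_ssub hi
  refine CMA_pair hCST h3 hi hj (Ne.symm hji) hx hxj {x} 1 ?_ ?_
    (ih1 _ hsub (CMA_nice hN hsub.subset) ?_) ?_
  · rw [singleton_subset_iff, mem_biUnion]
    exact ⟨i, hi, hx⟩
  · intro k hk hki hkj z hz hzk
    rw [mem_singleton] at hz
    subst hz
    rcases CMA_only (hdeg z) hi hj (Ne.symm hji) hx hxj hk hzk with h | h
    exacts [hki h, hkj h]
  · -- the pair of degrees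
    obtain ⟨a, ha, hax⟩ : ∃ a ∈ e i, a ≠ x := by
      have hc : 1 < (e i).card := by rw [h3 i hi]; norm_num
      obtain ⟨a, ha, hne⟩ := exists_mem_ne hc x
      exact ⟨a, ha, hne⟩
    obtain ⟨g, hg, hag, hgi⟩ := h4 i hi a ha
    have hgj : g ≠ j := by
      rintro rfl
      have h6 := h5 i hi g hg (Ne.symm hgi)
      have h7 : 1 < (e i ∩ e g).card :=
        one_lt_card.2 ⟨a, mem_inter.2 ⟨ha, hag⟩, x, mem_inter.2 ⟨hx, hxj⟩, hax⟩
      omega
    have hgJ' : g ∈ (J.erase i).erase j := mem_erase.2 ⟨hgj, mem_erase.2 ⟨hgi, hg⟩⟩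
    have ha1 : dj e ((J.erase i).erase j) a = 1 := by
      refine CMA_one hgJ' hag fun k hk hak => ?_
      rw [mem_erase, mem_erase] at hk
      rcases CMA_only (hdeg a) hi hg (Ne.symm hgi) ha hag hk.2.2 hak with h | h
      exacts [absurd h hk.2.1, h]
    obtain ⟨y, hy, hyi, hyj⟩ : ∃ y ∈ e g, y ∉ e i ∧ y ∉ e j := by
      by_contra hn
      push Not at hn
      have hs : e g ⊆ (e g ∩ e i) ∪ (e g ∩ e j) := by
        intro y hy
        rw [mem_union, mem_inter, mem_inter]
        by_cases hyi : y ∈ e i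
        · exact Or.inl ⟨hy, hyi⟩
        · exact Or.inr ⟨hy, hn y hy hyi⟩
      have b1 := card_le_card hs
      have b2 := card_union_le (e g ∩ e i) (e g ∩ e j)
      have b3 := h5 g hg i hi hgi
      have b4 := h5 g hg j hj hgj
      have b5 := h3 g hg
      omega
    obtain ⟨l, hl, hyl, hlg⟩ := h4 g hg y hy
    have hli : l ≠ i := by rintro rfl; exact hyi hyl
    have hlj : l ≠ j := by rintro rfl; exact hyj hyl
    refine ⟨g, hgJ', a, hag, y, hy, ha1, ?_⟩
    exact CMA_two ((CMA_mono hsub.subset y).trans (hdeg y)) hgJ'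
      (mem_erase.2 ⟨hlj, mem_erase.2 ⟨hli, hl⟩⟩) (Ne.symm hlg) hy hyl
  · rw [card_singleton]

end CMA

theorem stmt_CMA (hCST : Stmt_CST) (hCMB : Stmt_CMB) : Stmt_CMA := by
  intro X ι _ _ e J hJ
  have main : ∀ J : Finset ι, (∀ i ∈ J, 1 ≤ (e i).card ∧ (e i).card ≤ 3) →
      HT e J 0 ∧ (Nice e J → PB e J → HT e J 1) := by
    intro J
    induction J using Finset.strongInduction with
    | H J ih =>
      intro hJ
      have ih0 : ∀ J', J' ⊂ J → HT e J' 0 :=
        fun J' h => (ih J' h fun i hi => hJ i (h.subset hi)).1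
      have ih1 : ∀ J', J' ⊂ J → Nice e J' → PB e J' → HT e J' 1 :=
        fun J' h => (ih J' h fun i hi => hJ i (h.subset hi)).2
      exact ⟨CMA_first hCST hJ ih0 ih1, fun hN hPB =>
        hCMB X ι e J hN ih0 (fun J' h => ih1 J' h (CMA_nice hN h.subset)) hPB⟩
  exact (main J hJ).1

end Pool.Agent.Work.MP_1ce445_n3
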