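import Pool.Agent.Work.MP_1ce445_n3.Interface

/-!
Block CMB (MP_1ce445_co, the exact value of `P n (n - 3)`): transversals of linear hypergraphs of rank 3 and degree 2.
-/

namespace Pool.Agent.Work.MP_1ce445_n3

open Finset Pool.Agent.Work.MP_1ce445_co_56 Pool.Agent.Work.MP_1ce445_lin

section

variable {X ι : Type} [DecidableEq X] [DecidableEq ι] {e : ι → Finset X} {J : Finset ι}

theorem CMB_pos {x : X} {g : ι} (hg : g ∈ J) (hx : x ∈ e g) : 1 ≤ dj e J x := by
  unfold dj
  exact Finset.card_pos.2 ⟨g, Finset.mem_filter.2 ⟨hg, hx⟩⟩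

theorem CMB_one {x : X} {g : ι} (hg : g ∈ J) (hx : x ∈ e g) (h : dj e J x = 1) :
    ∀ i ∈ J, x ∈ e i → i = g := by
  unfold dj at h
  obtain ⟨b, hb⟩ := Finset.card_eq_one.1 h
  have h1 : ∀ i ∈ J, x ∈ e i → i = b := by
    intro i hi hxi
    have h2 : i ∈ J.filter (fun i => x ∈ e i) := Finset.mem_filter.2 ⟨hi, hxi⟩
    rw [hb] at h2
    exact Finset.mem_singleton.1 h2
  intro i hi hxi
  rw [h1 i hi hxi, h1 g hg hx]

theorem CMB_two {x : X} {g : ι} (hg : g ∈ J) (hx : x ∈ e g) (h : dj e J x = 2) :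
    ∃ h ∈ J, h ≠ g ∧ x ∈ e h ∧ ∀ i ∈ J, x ∈ e i → i = g ∨ i = h := by
  unfold dj at h
  obtain ⟨b, c, hbc, hb⟩ := Finset.card_eq_two.1 h
  have h1 : ∀ i, (i ∈ J ∧ x ∈ e i) ↔ i = b ∨ i = c := by
    intro i
    have h2 : i ∈ J.filter (fun i => x ∈ e i) ↔ i ∈ ({b, c} : Finset ι) := by rw [hb]
    rw [Finset.mem_filter, Finset.mem_insert, Finset.mem_singleton] at h2
    exact h2
  rcases (h1 g).1 ⟨hg, hx⟩ with h3 | h3
  · obtain ⟨h4, h5⟩ := (h1 c).2 (Or.inr rfl)
    refine ⟨c, h4, ?_, h5, ?_⟩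
    · rw [h3]
      exact hbc.symm
    · intro i hi hxi
      rw [h3]
      exact (h1 i).1 ⟨hi, hxi⟩
  · obtain ⟨h4, h5⟩ := (h1 b).2 (Or.inl rfl)
    refine ⟨b, h4, ?_, h5, ?_⟩
    · rw [h3]
      exact hbc
    · intro i hi hxi
      rw [h3]
      exact ((h1 i).1 ⟨hi, hxi⟩).symm

theorem CMB_dj1 {x : X} {g : ι} (hg : g ∈ J) (hx : x ∈ e g) (h : ∀ i ∈ J, x ∈ e i → i = g) :
    dj e J x = 1 := by
  unfold dj
  rw [Finset.card_eq_one]
  refine ⟨g, ?_⟩
  ext i
  rw [Finset.mem_filter, Finset.mem_singleton]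
  constructor
  · rintro ⟨h1, h2⟩
    exact h i h1 h2
  · rintro rfl
    exact ⟨hg, hx⟩

theorem CMB_lin (hN : Nice e J) {i j : ι} (hi : i ∈ J) (hj : j ∈ J) (hij : i ≠ j) {x y : X}
    (hxy : x ≠ y) (h1 : x ∈ e i) (h2 : x ∈ e j) (h3 : y ∈ e i) (h4 : y ∈ e j) : False :=
  hxy (Finset.card_le_one.1 (hN.lin i hi j hj hij) x (Finset.mem_inter.2 ⟨h1, h2⟩) y
    (Finset.mem_inter.2 ⟨h3, h4⟩))

theorem CMB_sum (hN : Nice e J) {R : Finset ι} (hR : R ⊆ J) :
    ∑ i ∈ J \ (J \ R), (4 - (e i).card) = R.card := by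
  rw [Finset.sdiff_sdiff_eq_self hR, Finset.card_eq_sum_ones]
  refine Finset.sum_congr rfl fun i hi => ?_
  rw [hN.three i (hR hi)]

theorem CMB_mono {J' : Finset ι} (h : J' ⊆ J) (x : X) : dj e J' x ≤ dj e J x := by
  unfold dj
  exact Finset.card_le_card (Finset.filter_subset_filter _ h)

end

theorem stmt_CMB (hC : Stmt_CST) : Stmt_CMB := by
  intro X ι _ _ e J hN h0 h1 hPB
  obtain ⟨g, hg, a, hag, y, hyg, ha1, hy2⟩ := hPB
  obtain ⟨h, hh, hhg, hyh, hyu⟩ := CMB_two hg hyg hy2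
  have hau := CMB_one hg hag ha1
  have hay : a ≠ y := by
    intro h5
    rw [h5] at ha1
    omega
  have hR : ({g, h} : Finset ι) ⊆ J := by
    intro i hi
    rw [Finset.mem_insert, Finset.mem_singleton] at hi
    rcases hi with h5 | h5
    · rw [h5]; exact hg
    · rw [h5]; exact hh
  have hRc : ({g, h} : Finset ι).card = 2 := Finset.card_pair hhg.symm
  have hJ'J : J \ {g, h} ⊆ J := Finset.sdiff_subset
  have hmem : ∀ i, i ∈ J \ {g, h} ↔ i ∈ J ∧ i ≠ g ∧ i ≠ h := by
    intro i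
    rw [Finset.mem_sdiff, Finset.mem_insert, Finset.mem_singleton, not_or]
  have hJ'ss : J \ {g, h} ⊂ J := ⟨hJ'J, fun hc => ((hmem g).1 (hc hg)).2.1 rfl⟩
  have hUy : ∀ i ∈ J, i ∉ J \ {g, h} → (e i ∩ {y}).Nonempty := by
    intro i hi hni
    rw [hmem] at hni
    refine ⟨y, Finset.mem_inter.2 ⟨?_, Finset.mem_singleton_self y⟩⟩
    by_cases h5 : i = g
    · rw [h5]; exact hyg
    · by_cases h6 : i = h
      · rw [h6]; exact hyh
      · exact absurd ⟨hi, h5, h6⟩ hni
  by_cases hc : ∃ a', a' ≠ a ∧ (a' ∈ e g ∨ a' ∈ e h) ∧ dj e J a' = 1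
  · obtain ⟨a', haa, hm', hd⟩ := hc
    have hay' : a' ≠ y := by
      intro h5
      rw [h5] at hd
      omega
    have hu' : ∀ i ∈ J, a' ∈ e i → i = g ∨ i = h := by
      intro i hi hai
      rcases hm' with h5 | h5
      · exact Or.inl (CMB_one hg h5 hd i hi hai)
      · exact Or.inr (CMB_one hh h5 hd i hi hai)
    refine hC X ι e J (J \ {g, h}) {y} {y, a, a'} 1 0 hJ'J hUy ?_ ?_ (h0 _ hJ'ss) ?_
    · intro z hz
      rw [Finset.mem_insert, Finset.mem_insert, Finset.mem_singleton] at hz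
      rw [Finset.mem_biUnion]
      rcases hz with h5 | h5 | h5
      · rw [h5]; exact ⟨g, hg, hyg⟩
      · rw [h5]; exact ⟨g, hg, hag⟩
      · rw [h5]
        rcases hm' with h6 | h6
        · exact ⟨g, hg, h6⟩
        · exact ⟨h, hh, h6⟩
    · intro i hi z hz hzi
      obtain ⟨hiJ, hig, hih⟩ := (hmem i).1 hi
      rw [Finset.mem_insert, Finset.mem_insert, Finset.mem_singleton] at hz
      rcases hz with h5 | h5 | h5
      · rw [h5] at hzi
        rcases hyu i hiJ hzi with h6 | h6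
        · exact hig h6
        · exact hih h6
      · rw [h5] at hzi
        exact hig (hau i hiJ hzi)
      · rw [h5] at hzi
        rcases hu' i hiJ hzi with h6 | h6
        · exact hig h6
        · exact hih h6
    · have h5 : ({y, a, a'} : Finset X).card = 3 := by
        rw [Finset.card_insert_of_notMem, Finset.card_pair haa.symm]
        rw [Finset.mem_insert, Finset.mem_singleton, not_or]
        exact ⟨hay.symm, hay'.symm⟩
      rw [CMB_sum hN hR, hRc, Finset.card_singleton, h5]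
  · push Not at hc
    have hdeg : ∀ x, x ≠ a → (x ∈ e g ∨ x ∈ e h) → dj e J x = 2 := by
      intro x hxa hx
      have h5 := hc x hxa hx
      have h6 := hN.two x
      have h7 : 1 ≤ dj e J x := by
        rcases hx with h8 | h8
        · exact CMB_pos hg h8
        · exact CMB_pos hh h8
      omega
    obtain ⟨z1, hz1g, hz1a, hz1y⟩ : ∃ z ∈ e g, z ≠ a ∧ z ≠ y := by
      by_contra hcon
      push Not at hcon
      have h5 : e g ⊆ {a, y} := by
        intro z hz
        rw [Finset.mem_insert, Finset.mem_singleton]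
        by_cases hza : z = a
        · exact Or.inl hza
        · exact Or.inr (hcon z hz hza)
      have h6 := Finset.card_le_card h5
      rw [hN.three g hg, Finset.card_pair hay] at h6
      omega
    obtain ⟨k1, hk1, hk1g, hz1k1, hz1u⟩ := CMB_two hg hz1g (hdeg z1 hz1a (Or.inl hz1g))
    have hk1h : k1 ≠ h := by
      intro h5
      rw [h5] at hz1k1
      exact CMB_lin hN hg hh hhg.symm hz1y hz1g hz1k1 hyg hyh
    have hah : a ∉ e h := fun h5 => hhg (hau h hh h5)
    obtain ⟨z3, k3, hz3h, hz3y, hk3, hk3h, hk3g, hk31, hz3k3⟩ : ∃ z k, z ∈ e h ∧ z ≠ y ∧ k ∈ J ∧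
        k ≠ h ∧ k ≠ g ∧ k ≠ k1 ∧ z ∈ e k := by
      have hc2 : ((e h).erase y).card = 2 := by
        rw [Finset.card_erase_of_mem hyh, hN.three h hh]
      obtain ⟨z2, z3, hne, heq⟩ := Finset.card_eq_two.1 hc2
      have hz2 : z2 ∈ (e h).erase y := by
        rw [heq]; exact Finset.mem_insert_self _ _
      have hz3 : z3 ∈ (e h).erase y := by
        rw [heq]; exact Finset.mem_insert_of_mem (Finset.mem_singleton_self _)
      obtain ⟨hz2y, hz2h⟩ := Finset.mem_erase.1 hz2
      obtain ⟨hz3y, hz3h⟩ := Finset.mem_erase.1 hz3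
      have hz2a : z2 ≠ a := fun h5 => hah (h5 ▸ hz2h)
      have hz3a : z3 ≠ a := fun h5 => hah (h5 ▸ hz3h)
      obtain ⟨k2, hk2, hk2h, hz2k2, -⟩ := CMB_two hh hz2h (hdeg z2 hz2a (Or.inr hz2h))
      obtain ⟨k3, hk3, hk3h, hz3k3, -⟩ := CMB_two hh hz3h (hdeg z3 hz3a (Or.inr hz3h))
      have hk2g : k2 ≠ g := by
        intro h5
        rw [h5] at hz2k2
        exact CMB_lin hN hg hh hhg.symm hz2y hz2k2 hz2h hyg hyh
      have hk3g : k3 ≠ g := by
        intro h5
        rw [h5] at hz3k3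
        exact CMB_lin hN hg hh hhg.symm hz3y hz3k3 hz3h hyg hyh
      have hk23 : k2 ≠ k3 := by
        intro h5
        rw [← h5] at hz3k3
        exact CMB_lin hN hh hk2 hk2h.symm hne hz2h hz2k2 hz3h hz3k3
      by_cases hk : k2 = k1
      · exact ⟨z3, k3, hz3h, hz3y, hk3, hk3h, hk3g, fun h5 => hk23 (hk.trans h5.symm), hz3k3⟩
      · exact ⟨z2, k2, hz2h, hz2y, hk2, hk2h, hk2g, hk, hz2k2⟩
    have hk1J' : k1 ∈ J \ {g, h} := (hmem k1).2 ⟨hk1, hk1g, hk1h⟩
    have hz1d : dj e (J \ {g, h}) z1 = 1 := by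
      apply CMB_dj1 hk1J' hz1k1
      intro i hi hzi
      obtain ⟨hiJ, hig, hih⟩ := (hmem i).1 hi
      rcases hz1u i hiJ hzi with h5 | h5
      · exact absurd h5 hig
      · exact h5
    by_cases hw : ∃ w ∈ e k1, dj e (J \ {g, h}) w = 2
    · obtain ⟨w, hwk, hwd⟩ := hw
      have hpb : PB e (J \ {g, h}) := ⟨k1, hk1J', z1, hz1k1, w, hwk, hz1d, hwd⟩
      refine hC X ι e J (J \ {g, h}) {y} {y, a} 1 1 hJ'J hUy ?_ ?_ (h1 _ hJ'ss hpb) ?_
      · intro z hz
        rw [Finset.mem_insert, Finset.mem_singleton] at hz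
        rw [Finset.mem_biUnion]
        rcases hz with h5 | h5
        · rw [h5]; exact ⟨g, hg, hyg⟩
        · rw [h5]; exact ⟨g, hg, hag⟩
      · intro i hi z hz hzi
        obtain ⟨hiJ, hig, hih⟩ := (hmem i).1 hi
        rw [Finset.mem_insert, Finset.mem_singleton] at hz
        rcases hz with h5 | h5
        · rw [h5] at hzi
          rcases hyu i hiJ hzi with h6 | h6
          · exact hig h6
          · exact hih h6
        · rw [h5] at hzi
          exact hig (hau i hiJ hzi)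
      · rw [CMB_sum hN hR, hRc, Finset.card_singleton, Finset.card_pair hay.symm]
    · push Not at hw
      have hR4 : ({g, h, k1, k3} : Finset ι) ⊆ J := by
        intro i hi
        rw [Finset.mem_insert, Finset.mem_insert, Finset.mem_insert, Finset.mem_singleton] at hi
        rcases hi with h5 | h5 | h5 | h5
        · rw [h5]; exact hg
        · rw [h5]; exact hh
        · rw [h5]; exact hk1
        · rw [h5]; exact hk3
      have hR4c : ({g, h, k1, k3} : Finset ι).card = 4 := by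
        rw [Finset.card_insert_of_notMem, Finset.card_insert_of_notMem,
          Finset.card_pair (Ne.symm hk31)]
        · rw [Finset.mem_insert, Finset.mem_singleton, not_or]
          exact ⟨Ne.symm hk1h, Ne.symm hk3h⟩
        · rw [Finset.mem_insert, Finset.mem_insert, Finset.mem_singleton, not_or, not_or]
          exact ⟨Ne.symm hhg, Ne.symm hk1g, Ne.symm hk3g⟩
      have hmem4 : ∀ i, i ∈ J \ {g, h, k1, k3} ↔ i ∈ J ∧ i ≠ g ∧ i ≠ h ∧ i ≠ k1 ∧ i ≠ k3 := by
        intro i
        rw [Finset.mem_sdiff, Finset.mem_insert, Finset.mem_insert, Finset.mem_insert,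
          Finset.mem_singleton, not_or, not_or, not_or]
      have hJ4ss : J \ {g, h, k1, k3} ⊂ J :=
        ⟨Finset.sdiff_subset, fun hc' => ((hmem4 g).1 (hc' hg)).2.1 rfl⟩
      refine hC X ι e J (J \ {g, h, k1, k3}) {z1, z3} ({a, y} ∪ e k1) 1 0 Finset.sdiff_subset
        ?_ ?_ ?_ (h0 _ hJ4ss) ?_
      · intro i hi hni
        rw [hmem4] at hni
        have hz1U : z1 ∈ ({z1, z3} : Finset X) := Finset.mem_insert_self _ _
        have hz3U : z3 ∈ ({z1, z3} : Finset X) :=
          Finset.mem_insert_of_mem (Finset.mem_singleton_self _)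
        by_cases h5 : i = g
        · rw [h5]; exact ⟨z1, Finset.mem_inter.2 ⟨hz1g, hz1U⟩⟩
        by_cases h6 : i = h
        · rw [h6]; exact ⟨z3, Finset.mem_inter.2 ⟨hz3h, hz3U⟩⟩
        by_cases h7 : i = k1
        · rw [h7]; exact ⟨z1, Finset.mem_inter.2 ⟨hz1k1, hz1U⟩⟩
        by_cases h8 : i = k3
        · rw [h8]; exact ⟨z3, Finset.mem_inter.2 ⟨hz3k3, hz3U⟩⟩
        exact absurd ⟨hi, h5, h6, h7, h8⟩ hni
      · intro z hz
        rw [Finset.mem_union, Finset.mem_insert, Finset.mem_singleton] at hz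
        rw [Finset.mem_biUnion]
        rcases hz with (h5 | h5) | h5
        · rw [h5]; exact ⟨g, hg, hag⟩
        · rw [h5]; exact ⟨g, hg, hyg⟩
        · exact ⟨k1, hk1, h5⟩
      · intro i hi z hz hzi
        obtain ⟨hiJ, hig, hih, hik1, hik3⟩ := (hmem4 i).1 hi
        rw [Finset.mem_union, Finset.mem_insert, Finset.mem_singleton] at hz
        rcases hz with (h5 | h5) | h5
        · rw [h5] at hzi
          exact hig (hau i hiJ hzi)
        · rw [h5] at hzi
          rcases hyu i hiJ hzi with h6 | h6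
          · exact hig h6
          · exact hih h6
        · have h6 : 1 ≤ dj e (J \ {g, h}) z := CMB_pos hk1J' h5
          have h7 := hw z h5
          have h8 : dj e (J \ {g, h}) z ≤ 2 := (CMB_mono hJ'J z).trans (hN.two z)
          have h9 : dj e (J \ {g, h}) z = 1 := by omega
          exact hik1 (CMB_one hk1J' h5 h9 i ((hmem i).2 ⟨hiJ, hig, hih⟩) hzi)
      · have hdis : Disjoint ({a, y} : Finset X) (e k1) := by
          rw [Finset.disjoint_left]
          intro z hz hzk
          rw [Finset.mem_insert, Finset.mem_singleton] at hz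
          rcases hz with h5 | h5
          · rw [h5] at hzk
            exact hk1g (hau k1 hk1 hzk)
          · rw [h5] at hzk
            rcases hyu k1 hk1 hzk with h6 | h6
            · exact hk1g h6
            · exact hk1h h6
        have h5 : (({a, y} : Finset X) ∪ e k1).card = 5 := by
          rw [Finset.card_union_of_disjoint hdis, Finset.card_pair hay, hN.three k1 hk1]
        have h6 : ({z1, z3} : Finset X).card ≤ 2 := Finset.card_le_two
        rw [CMB_sum hN hR4, hR4c, h5]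
        omega

end Pool.Agent.Work.MP_1ce445_n3
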