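import Pool.Agent.Work.MP_1ce445_n3.Interface

/-!
MP_1ce445_co, block CST of MP_1ce445_n3: the reduction step for transversals.
-/

namespace Pool.Agent.Work.MP_1ce445_n3

open Finset Pool.Agent.Work.MP_1ce445_co_56 Pool.Agent.Work.MP_1ce445_lin

theorem stmt_CST : Stmt_CST := by
  intro X ι _ _ e J J' U Z n n' hJ hU hZ hdis hHT hineq
  obtain ⟨S', hS', hc⟩ := hHT
  refine ⟨U ∪ S', ?_, ?_⟩
  · intro i hi
    by_cases hi' : i ∈ J'
    · exact (hS' i hi').mono (Finset.inter_subset_inter_left Finset.subset_union_right)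
    · exact (hU i hi hi').mono (Finset.inter_subset_inter_left Finset.subset_union_left)
  · have h1 : (U ∪ S').card ≤ U.card + S'.card := Finset.card_union_le U S'
    have hd : Disjoint (J'.biUnion e) Z := by
      rw [Finset.disjoint_left]
      intro z hz hzZ
      obtain ⟨i, hi, hzi⟩ := Finset.mem_biUnion.mp hz
      exact hdis i hi z hzZ hzi
    have h2 : (J'.biUnion e).card + Z.card ≤ (J.biUnion e).card := by
      rw [← Finset.card_union_of_disjoint hd]
      apply Finset.card_le_card
      apply Finset.union_subset _ hZ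
      exact Finset.biUnion_subset_biUnion_of_subset_left e hJ
    have h3 : ∑ i ∈ J \ J', (4 - (e i).card) + ∑ i ∈ J', (4 - (e i).card)
        = ∑ i ∈ J, (4 - (e i).card) := Finset.sum_sdiff hJ
    omega

end Pool.Agent.Work.MP_1ce445_n3
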