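import Pool.Agent.Work.MP_1ce445_n3.Interface

/-!
Block LO3: the total domination number of a graph with degrees 1, 2, 3.
-/

set_option autoImplicit false

namespace Pool.Agent.Work.MP_1ce445_n3

open Finset Pool.Agent.Work.MP_1ce445_co_56 Pool.Agent.Work.MP_1ce445_lin

theorem stmt_LO3 (h1 : Stmt_CMA) : Stmt_LO3 := by
  classical
  intro V _ _ G h
  set e : V → Finset V := fun v => univ.filter (fun w => G.Adj v w) with he
  have hcard : ∀ v, (e v).card = dg G v := by
    intro v
    unfold dg
    simp only [he]
  obtain ⟨S, hS, hle⟩ := h1 V V e univ (fun v _ => by rw [hcard v]; exact h v)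
  have hT : IsTDS G S := by
    intro v
    obtain ⟨w, hw⟩ := hS v (mem_univ v)
    simp only [he, mem_inter, mem_filter, mem_univ, true_and] at hw
    exact ⟨w, hw.2, hw.1⟩
  have h2 := gammaT_le_card hT
  have h3 : ((univ : Finset V).biUnion e).card ≤ Fintype.card V := card_le_univ _
  have h4 : ∑ v, (dg G v - 1) + ∑ v ∈ (univ : Finset V), (4 - (e v).card) = 3 * Fintype.card V := by
    rw [← sum_add_distrib]
    have : ∀ v ∈ (univ : Finset V), (dg G v - 1) + (4 - (e v).card) = 3 := by
      intro v _
      rw [hcard v]
      have := h v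
      omega
    rw [sum_congr rfl this, sum_const, card_univ, smul_eq_mul, mul_comm]
  omega

end Pool.Agent.Work.MP_1ce445_n3

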