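import Pool.Agent.Work.MP_1ce445_n3.Interface

/-!
Block KDT of the exact value of `P n (n - 3)`: the data of the assembly.
-/

namespace Pool.Agent.Work.MP_1ce445_n3

open Finset Pool.Agent.Work.MP_1ce445_co_56 Pool.Agent.Work.MP_1ce445_lin

/-- the vertices -/
abbrev KDT_V (s : ℕ) : Type := (Fin s × Bool) ⊕ (Fin s × Bool)

/-- the block of a vertex -/
def KDT_blk {s : ℕ} : KDT_V s → Fin s
  | .inl x => x.1
  | .inr x => x.1

/-- the shift -/
def KDT_dl {s : ℕ} (d : Fin (s - 1)) : Fin s := ⟨d.val + 1, by have := d.2; omega⟩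

lemma KDT_dl_ne {s : ℕ} [NeZero s] (d : Fin (s - 1)) : KDT_dl d ≠ 0 := by
  intro h
  have h1 := congrArg Fin.val h
  simp [KDT_dl] at h1

lemma KDT_dl_inj {s : ℕ} {d d' : Fin (s - 1)} (h : KDT_dl d = KDT_dl d') : d = d' := by
  have h1 := congrArg Fin.val h
  simp only [KDT_dl] at h1
  exact Fin.ext (by omega)

lemma KDT_dl_surj {s : ℕ} [NeZero s] (x : Fin s) (hx : x ≠ 0) : ∃ d, KDT_dl d = x := by
  have h0 : x.val ≠ 0 := fun h => hx (Fin.ext (by simpa using h))
  refine ⟨⟨x.val - 1, by have := x.2; omega⟩, Fin.ext ?_⟩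
  simp only [KDT_dl]
  omega

/-- the matchings -/
def KDT_mu {s : ℕ} [NeZero s] (f : Fin (2 * s - 2) → Fin s × Bool → Fin s × Bool) :
    Fin (2 * s - 2) ⊕ Fin (s - 1) → KDT_V s → KDT_V s
  | .inl c, .inl x => .inl (f c x)
  | .inl c, .inr x => .inr (f c x)
  | .inr d, .inl x => .inr (x.1 + KDT_dl d, !x.2)
  | .inr d, .inr x => .inl (x.1 - KDT_dl d, !x.2)

/-- the matchings of the complements of the blocks -/
def KDT_nu {s : ℕ} (L : Fin s → Equiv.Perm (Fin s)) (t : Fin s) : KDT_V s → KDT_V s
  | .inl x => .inr (L t x.1, x.2)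
  | .inr x => .inl ((L t).symm x.1, x.2)

/-- the four points of a block -/
def KDT_B {s : ℕ} (t : Fin s) : Finset (KDT_V s) :=
  {.inl (t, false), .inl (t, true), .inr (t, false), .inr (t, true)}

lemma KDT_B_mem {s : ℕ} (t : Fin s) (v : KDT_V s) : v ∈ KDT_B t ↔ KDT_blk v = t := by
  rcases v with ⟨i, b⟩ | ⟨i, b⟩ <;> cases b <;> simp [KDT_B, KDT_blk]

lemma KDT_B_card {s : ℕ} (t : Fin s) : (KDT_B t).card ≤ 4 := card_le_four

theorem stmt_KDT (h1 : Stmt_LSQ) (h2 : Stmt_OFB) : Stmt_KDT := by
  classical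
  intro s hs
  haveI : NeZero s := ⟨by omega⟩
  obtain ⟨L, hLt, hLi⟩ := h1 s hs
  obtain ⟨f, hf1, hf2, hf3, hf4⟩ := h2 s (by omega)
  have hL1 : ∀ t i, i ≠ t → L t i ≠ t := by
    intro t i hi h
    apply hi
    apply (L t).injective
    rw [h, hLt]
  have hL2 : ∀ t, (L t).symm t = t := by
    intro t
    rw [Equiv.symm_apply_eq, hLt]
  have hL3 : ∀ t j, j ≠ t → (L t).symm j ≠ t := by
    intro t j hj h
    apply hj
    rw [Equiv.symm_apply_eq, hLt] at h
    exact h
  have hL4 : ∀ t i, L t i = i → t = i := by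
    intro t i h
    apply hLi i
    show L t i = L i i
    rw [h, hLt]
  have hL5 : ∀ i j, ∃ t, L t i = j := by
    intro i j
    exact (Finite.surjective_of_injective (hLi i)) j
  refine ⟨KDT_blk, fun v w => v ≠ w ∧ KDT_blk v = KDT_blk w, KDT_mu f, KDT_nu L, ?_⟩
  constructor
  · -- mu_inv
    rintro (c | d) (x | x)
    · show Sum.inl (f c (f c x)) = _
      rw [hf1]
    · show Sum.inr (f c (f c x)) = _
      rw [hf1]
    · simp [KDT_mu]
    · simp [KDT_mu]
  · -- mu_ne
    rintro (c | d) (x | x) h
    · exact hf2 c x (by rw [Sum.inl_injective h])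
    · exact hf2 c x (by rw [Sum.inr_injective h])
    · simp [KDT_mu] at h
    · simp [KDT_mu] at h
  · -- nu_blk
    rintro t (x | x) h
    · exact hL1 t x.1 h
    · exact hL3 t x.1 h
  · -- nu_inv
    rintro t (x | x) h
    · simp [KDT_nu]
    · simp [KDT_nu]
  · -- nu_ne
    rintro t (x | x) h
    · simp [KDT_nu]
    · simp [KDT_nu]
  · -- sp_symm
    rintro v w ⟨h, h'⟩
    exact ⟨h.symm, h'.symm⟩
  · -- sp_irr
    rintro v ⟨h, -⟩
    exact h rfl
  · -- sp_blk
    rintro v w ⟨-, h⟩
    exact h
  · -- cov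
    intro v w hne
    by_cases hb : KDT_blk v = KDT_blk w
    · exact Or.inl ⟨hne, hb⟩
    · right
      rcases v with x | x <;> rcases w with y | y
      · obtain ⟨c, hc⟩ := hf4 x y hb
        left
        exact ⟨.inl c, by show Sum.inl (f c x) = _; rw [hc]⟩
      · by_cases hbb : y.2 = x.2
        · obtain ⟨t, ht⟩ := hL5 x.1 y.1
          right
          refine ⟨t, ?_, ?_⟩
          · intro h
            have h' : x.1 = t := h
            rw [← h', hLt] at ht
            exact hb ht
          · show Sum.inr (L t x.1, x.2) = _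
            rw [ht, ← hbb]
        · have hd : y.1 - x.1 ≠ 0 := by
            intro h
            exact hb (sub_eq_zero.1 h).symm
          obtain ⟨d, hd⟩ := KDT_dl_surj _ hd
          left
          refine ⟨.inr d, ?_⟩
          show Sum.inr (x.1 + KDT_dl d, !x.2) = _
          rw [hd]
          congr 1
          apply Prod.ext
          · show x.1 + (y.1 - x.1) = y.1
            abel
          · show (!x.2) = y.2
            revert hbb
            cases x.2 <;> cases y.2 <;> simp
      · by_cases hbb : y.2 = x.2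
        · obtain ⟨t, ht⟩ := hL5 y.1 x.1
          right
          refine ⟨t, ?_, ?_⟩
          · intro h
            have h' : x.1 = t := h
            rw [h'] at ht
            have h3 : y.1 = t := by
              apply (L t).injective
              rw [ht, hLt]
            apply hb
            show x.1 = y.1
            rw [h', h3]
          · show Sum.inl ((L t).symm x.1, x.2) = _
            rw [← ht, Equiv.symm_apply_apply, ← hbb]
        · have hd : x.1 - y.1 ≠ 0 := by
            intro h
            exact hb (sub_eq_zero.1 h)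
          obtain ⟨d, hd⟩ := KDT_dl_surj _ hd
          left
          refine ⟨.inr d, ?_⟩
          show Sum.inl (x.1 - KDT_dl d, !x.2) = _
          rw [hd]
          congr 1
          apply Prod.ext
          · show x.1 - (x.1 - y.1) = y.1
            abel
          · show (!x.2) = y.2
            revert hbb
            cases x.2 <;> cases y.2 <;> simp
      · obtain ⟨c, hc⟩ := hf4 x y hb
        left
        exact ⟨.inl c, by show Sum.inr (f c x) = _; rw [hc]⟩
  · -- d1
    rintro (c | d) (c' | d') (x | x) h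
    · exact congrArg _ (hf3 c c' x (Sum.inl_injective h))
    · exact congrArg _ (hf3 c c' x (Sum.inr_injective h))
    · simp [KDT_mu] at h
    · simp [KDT_mu] at h
    · simp [KDT_mu] at h
    · simp [KDT_mu] at h
    · have h3 : (x.1 + KDT_dl d, !x.2) = (x.1 + KDT_dl d', !x.2) := Sum.inr_injective h
      have h4 := congrArg Prod.fst h3
      exact congrArg _ (KDT_dl_inj (add_left_cancel h4))
    · have h3 : (x.1 - KDT_dl d, !x.2) = (x.1 - KDT_dl d', !x.2) := Sum.inl_injective h
      have h4 := congrArg Prod.fst h3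
      exact congrArg _ (KDT_dl_inj (sub_right_injective h4))
  · -- d2
    rintro t t' (x | x) ht ht' h
    · have h3 : (L t x.1, x.2) = (L t' x.1, x.2) := Sum.inr_injective h
      have h4 : L t x.1 = L t' x.1 := congrArg Prod.fst h3
      exact hLi x.1 h4
    · have h3 : ((L t).symm x.1, x.2) = ((L t').symm x.1, x.2) := Sum.inl_injective h
      have h4 : (L t).symm x.1 = (L t').symm x.1 := congrArg Prod.fst h3
      apply hLi ((L t).symm x.1)
      show L t ((L t).symm x.1) = L t' ((L t).symm x.1)
      rw [h4, Equiv.apply_symm_apply, ← h4, Equiv.apply_symm_apply]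
  · -- d3
    rintro t (c | d) (x | x) ht h
    · simp [KDT_mu, KDT_nu] at h
    · simp [KDT_mu, KDT_nu] at h
    · simp [KDT_mu, KDT_nu] at h
    · simp [KDT_mu, KDT_nu] at h
  · -- d4
    rintro v w (c | d) ⟨-, hb⟩ h
    · rw [← h] at hb
      rcases v with x | x
      · exact hf2 c x hb.symm
      · exact hf2 c x hb.symm
    · rw [← h] at hb
      rcases v with x | x
      · have h3 : x.1 = x.1 + KDT_dl d := hb
        exact KDT_dl_ne d (left_eq_add.1 h3)
      · have h3 : x.1 = x.1 - KDT_dl d := hb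
        exact KDT_dl_ne d (sub_eq_self.1 h3.symm)
  · -- d5
    rintro v w t ⟨-, hb⟩ ht h
    rw [← h] at hb
    rcases v with x | x
    · have h3 : x.1 = L t x.1 := hb
      exact ht (hL4 t x.1 h3.symm).symm
    · have h3 : x.1 = (L t).symm x.1 := hb
      have h4 : L t x.1 = x.1 := by
        rw [Equiv.eq_symm_apply] at h3
        exact h3
      exact ht (hL4 t x.1 h4).symm
  · -- deg
    rintro (x | x)
    · refine ⟨.inl (x.1, !x.2), ?_, rfl⟩
      intro h
      have h3 := congrArg Prod.snd (Sum.inl_injective h)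
      revert h3
      cases x.2 <;> simp
    · refine ⟨.inr (x.1, !x.2), ?_, rfl⟩
      intro h
      have h3 := congrArg Prod.snd (Sum.inr_injective h)
      revert h3
      cases x.2 <;> simp
  · -- loss
    intro t R hR hd
    show R.card ≤ 2
    obtain ⟨w0, ⟨-, hb0⟩, hw0⟩ := hd (.inl (t, false)) rfl
    have hb0' : KDT_blk w0 = t := hb0.symm
    obtain ⟨w1, ⟨hne, hb1⟩, hw1⟩ := hd w0 hb0'
    have hb1' : KDT_blk w1 = t := by rw [← hb1, hb0']
    have hsub : R ⊆ KDT_B t := fun v hv => (KDT_B_mem t v).2 (hR v hv)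
    have hsub2 : ({w0, w1} : Finset (KDT_V s)) ⊆ KDT_B t \ R := by
      intro v hv
      rw [mem_insert, mem_singleton] at hv
      rw [mem_sdiff]
      rcases hv with rfl | rfl
      · exact ⟨(KDT_B_mem t _).2 hb0', hw0⟩
      · exact ⟨(KDT_B_mem t _).2 hb1', hw1⟩
    have h3 := card_le_card hsub2
    rw [card_pair hne, card_sdiff_of_subset hsub] at h3
    have h4 := KDT_B_card t
    have h5 := card_le_card hsub
    omega

end Pool.Agent.Work.MP_1ce445_n3
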