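import Pool.Agent.Work.MP_1ce445_n3.Interface

/-! Block LOT of MP_1ce445_n3: the lower bound for `P (4 s) (4 s - 3)`. -/

namespace Pool.Agent.Work.MP_1ce445_n3

open Finset Pool.Agent.Work.MP_1ce445_co_56 Pool.Agent.Work.MP_1ce445_lin

theorem stmt_LOT (hASM : Pool.Agent.Work.MP_1ce445_ex.Stmt_ASM) (hKDT : Stmt_KDT) : Stmt_LOT := by
  intro s hs
  obtain ⟨blk, Sp, μ, ν, hD⟩ := hKDT s hs
  have key := hASM blk Sp μ ν (fun _ => 2) hD
  have c1 : Fintype.card ((Fin s × Bool) ⊕ (Fin s × Bool)) = 4 * s := by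
    rw [Fintype.card_sum, Fintype.card_prod, Fintype.card_fin, Fintype.card_bool]
    ring
  have c2 : Fintype.card (Fin (2 * s - 2) ⊕ Fin (s - 1)) = 3 * s - 3 := by
    rw [Fintype.card_sum, Fintype.card_fin, Fintype.card_fin]
    omega
  have c3 : 3 * s - 3 + s = 4 * s - 3 := by omega
  rw [c1, c2, c3, Finset.prod_const, Finset.card_univ, Fintype.card_fin] at key
  exact key

end Pool.Agent.Work.MP_1ce445_n3
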