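import Pool.Agent.Work.MP_1ce445_n3.Interface

/-!
Block LSQ: idempotent Latin squares of every order `s ≥ 3`.
-/

namespace Pool.Agent.Work.MP_1ce445_n3

open Finset Pool.Agent.Work.MP_1ce445_co_56 Pool.Agent.Work.MP_1ce445_lin

/-- transport to `Fin s` -/
theorem LSQ_tr (s : ℕ) (A : Type) [Fintype A] (hA : Fintype.card A = s) (F : A → A → A)
    (h1 : ∀ t, F t t = t) (h2 : ∀ t, Function.Injective (F t))
    (h3 : ∀ i, Function.Injective (fun t => F t i)) :
    ∃ L : Fin s → Equiv.Perm (Fin s), (∀ t, L t t = t) ∧
      ∀ i, Function.Injective (fun t => L t i) := by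
  have e : A ≃ Fin s := Fintype.equivFinOfCardEq hA
  have hinj : ∀ t : Fin s, Function.Injective (fun i : Fin s => e (F (e.symm t) (e.symm i))) := by
    intro t i j hij
    exact e.symm.injective (h2 _ (e.injective hij))
  refine ⟨fun t => Equiv.ofBijective _ (Finite.injective_iff_bijective.mp (hinj t)), ?_, ?_⟩
  · intro t
    show e (F (e.symm t) (e.symm t)) = t
    rw [h1]
    simp
  · intro i t t' h
    have h' : e (F (e.symm t) (e.symm i)) = e (F (e.symm t') (e.symm i)) := h
    exact e.symm.injective (h3 _ (e.injective h'))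

/-- the square of even order -/
def LSQ_F {K : Type} [CommRing K] [DecidableEq K] (w : K) : Option K → Option K → Option K
  | some t, some i => if i = t - w then none else some (2 * t - i)
  | some t, none => some (t + w)
  | none, some i => some (i + 1)
  | none, none => none

theorem LSQ_F1 {K : Type} [CommRing K] [DecidableEq K] (w : K) (hw : 2 * w = 1)
    (h01 : (1 : K) ≠ 0) (t : Option K) : LSQ_F w t t = t := by
  rcases t with _ | t
  · rfl
  · have h : ¬ t = t - w := by
      intro h
      apply h01
      have : w = 0 := by linear_combination h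
      rw [← hw, this, mul_zero]
    have h2 : 2 * t - t = t := by ring
    simp only [LSQ_F, if_neg h, h2]

theorem LSQ_F2 {K : Type} [CommRing K] [DecidableEq K] (w : K) (_hw : 2 * w = 1)
    (t : Option K) : Function.Injective (LSQ_F w t) := by
  intro i j h
  rcases t with _ | t <;> rcases i with _ | i <;> rcases j with _ | j
  · rfl
  · simp [LSQ_F] at h
  · simp [LSQ_F] at h
  · simpa [LSQ_F] using h
  · rfl
  · exfalso
    by_cases hj : j = t - w
    · simp [LSQ_F, hj] at h
    · simp only [LSQ_F, if_neg hj, Option.some.injEq] at h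
      exact hj (by linear_combination h)
  · exfalso
    by_cases hi : i = t - w
    · simp [LSQ_F, hi] at h
    · simp only [LSQ_F, if_neg hi, Option.some.injEq] at h
      exact hi (by linear_combination -h)
  · by_cases hi : i = t - w <;> by_cases hj : j = t - w
    · rw [hi, hj]
    · simp [LSQ_F, hi, hj] at h
    · simp [LSQ_F, hi, hj] at h
    · simp only [LSQ_F, if_neg hi, if_neg hj, Option.some.injEq] at h
      congr 1
      linear_combination -h

theorem LSQ_F3 {K : Type} [CommRing K] [DecidableEq K] (w : K) (hw : 2 * w = 1)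
    (i : Option K) : Function.Injective (fun t => LSQ_F w t i) := by
  intro t t' h
  simp only at h
  rcases i with _ | i <;> rcases t with _ | t <;> rcases t' with _ | t'
  · rfl
  · simp [LSQ_F] at h
  · simp [LSQ_F] at h
  · simpa [LSQ_F] using h
  · rfl
  · exfalso
    by_cases hi : i = t' - w
    · simp only [LSQ_F, if_pos hi] at h
      exact absurd h (by simp)
    · simp only [LSQ_F, if_neg hi, Option.some.injEq] at h
      apply hi
      linear_combination w * h - (i - t') * hw
  · exfalso
    by_cases hi : i = t - w
    · simp only [LSQ_F, if_pos hi] at h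
      exact absurd h (by simp)
    · simp only [LSQ_F, if_neg hi, Option.some.injEq] at h
      apply hi
      linear_combination (-w) * h - (i - t) * hw
  · by_cases hi : i = t - w <;> by_cases hj : i = t' - w
    · congr 1
      linear_combination hj - hi
    · simp only [LSQ_F, if_pos hi, if_neg hj] at h
      exact absurd h (by simp)
    · simp only [LSQ_F, if_neg hi, if_pos hj] at h
      exact absurd h (by simp)
    · simp only [LSQ_F, if_neg hi, if_neg hj, Option.some.injEq] at h
      congr 1
      linear_combination w * h + (t' - t) * hw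

theorem LSQ_half (m : ℕ) : (2 : ZMod (2 * m + 1)) * (-(m : ZMod (2 * m + 1))) = 1 := by
  have h : ((2 * m + 1 : ℕ) : ZMod (2 * m + 1)) = 0 := ZMod.natCast_self _
  push_cast at h
  linear_combination -h

theorem stmt_LSQ : Stmt_LSQ := by
  intro s hs
  rcases Nat.even_or_odd' s with ⟨m, hm | hm⟩
  · obtain ⟨r, rfl⟩ : ∃ r, m = r + 1 := ⟨m - 1, by omega⟩
    have hr : 1 ≤ r := by omega
    have hq : 1 < 2 * r + 1 := by omega
    have : Fact (1 < 2 * r + 1) := ⟨hq⟩
    apply LSQ_tr s (Option (ZMod (2 * r + 1))) _ (LSQ_F (-(r : ZMod (2 * r + 1))))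
      (LSQ_F1 _ (LSQ_half r) one_ne_zero) (LSQ_F2 _ (LSQ_half r)) (LSQ_F3 _ (LSQ_half r))
    rw [Fintype.card_option, ZMod.card, hm]
    ring
  · subst hm
    apply LSQ_tr (2 * m + 1) (ZMod (2 * m + 1)) (ZMod.card _) (fun t i => 2 * t - i)
    · intro t
      ring
    · intro t i j h
      simp only at h
      linear_combination -h
    · intro i t t' h
      simp only at h
      have hw := LSQ_half m
      linear_combination (-(m : ZMod (2 * m + 1))) * h + (t' - t) * hw

end Pool.Agent.Work.MP_1ce445_n3
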