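import Pool.Agent.Work.MP_1ce445_n3.Interface

/-! # Block OFB: a one-factorization (typed by helper73) -/

namespace Pool.Agent.Work.MP_1ce445_n3

open Finset Pool.Agent.Work.MP_1ce445_co_56 Pool.Agent.Work.MP_1ce445_lin

/-- the class `c` -/
def OFB_g {q : ℕ} (h c : ZMod q) : Option (ZMod q) → Option (ZMod q)
  | none => some (c * h)
  | some x => if x + x = c then none else some (c - x)

theorem OFB_none {q : ℕ} (h c : ZMod q) : OFB_g h c none = some (c * h) := rfl

theorem OFB_some_t {q : ℕ} (h : ZMod q) {c x : ZMod q} (hx : x + x = c) :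
    OFB_g h c (some x) = none := by
  change (if x + x = c then none else some (c - x)) = none
  rw [if_pos hx]

theorem OFB_some_f {q : ℕ} (h : ZMod q) {c x : ZMod q} (hx : ¬ x + x = c) :
    OFB_g h c (some x) = some (c - x) := by
  change (if x + x = c then none else some (c - x)) = some (c - x)
  rw [if_neg hx]

section

variable {q : ℕ} {h : ZMod q} (hh : h + h = 1)

include hh

theorem OFB_half (x : ZMod q) : (x + x) * h = x := by
  have : (x + x) * h = x * (h + h) := by ring
  rw [this, hh, mul_one]

theorem OFB_half' (c : ZMod q) : c * h + c * h = c := by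
  rw [← mul_add, hh, mul_one]

theorem OFB_inv (c : ZMod q) (v : Option (ZMod q)) : OFB_g h c (OFB_g h c v) = v := by
  rcases v with _ | x
  · rw [OFB_none, OFB_some_t h (OFB_half' hh c)]
  · by_cases hx : x + x = c
    · rw [OFB_some_t h hx, OFB_none, ← hx, OFB_half hh]
    · have hx' : ¬ (c - x) + (c - x) = c := by
        intro h1
        apply hx
        linear_combination -h1
      rw [OFB_some_f h hx, OFB_some_f h hx']
      congr 1
      ring

omit hh in
theorem OFB_ne (c : ZMod q) (v : Option (ZMod q)) : OFB_g h c v ≠ v := by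
  rcases v with _ | x
  · rw [OFB_none]
    exact fun h1 => Option.some_ne_none _ h1
  · by_cases hx : x + x = c
    · rw [OFB_some_t h hx]
      exact fun h1 => Option.some_ne_none _ h1.symm
    · rw [OFB_some_f h hx]
      intro h1
      have h2 : c - x = x := Option.some_injective _ h1
      apply hx
      linear_combination -h2

theorem OFB_inj {c c' : ZMod q} {v : Option (ZMod q)} (h1 : OFB_g h c v = OFB_g h c' v) :
    c = c' := by
  rcases v with _ | x
  · rw [OFB_none, OFB_none] at h1
    have h2 : c * h = c' * h := Option.some_injective _ h1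
    rw [← OFB_half' hh c, ← OFB_half' hh c', h2]
  · by_cases hx : x + x = c
    · by_cases hx' : x + x = c'
      · rw [← hx, ← hx']
      · rw [OFB_some_t h hx, OFB_some_f h hx'] at h1
        exact absurd h1.symm (Option.some_ne_none _)
    · by_cases hx' : x + x = c'
      · rw [OFB_some_f h hx, OFB_some_t h hx'] at h1
        exact absurd h1 (Option.some_ne_none _)
      · rw [OFB_some_f h hx, OFB_some_f h hx'] at h1
        have h2 : c - x = c' - x := Option.some_injective _ h1
        linear_combination h2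

theorem OFB_ex {v w : Option (ZMod q)} (hvw : v ≠ w) : ∃ c, OFB_g h c v = w := by
  rcases v with _ | x
  · rcases w with _ | y
    · exact absurd rfl hvw
    · exact ⟨y + y, by rw [OFB_none, OFB_half hh]⟩
  · rcases w with _ | y
    · exact ⟨x + x, OFB_some_t h rfl⟩
    · refine ⟨x + y, ?_⟩
      have hx : ¬ x + x = x + y := by
        intro h1
        apply hvw
        congr 1
        linear_combination h1
      rw [OFB_some_f h hx]
      congr 1
      ring

end

/-- the bijection -/
def OFB_p (s : ℕ) (v : Fin s × Bool) : Option (ZMod (2 * s - 1)) :=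
  if v.2 = false then some ((v.1 : ℕ) : ZMod (2 * s - 1))
  else if (v.1 : ℕ) = 0 then none else some (-((v.1 : ℕ) : ZMod (2 * s - 1)))

theorem OFB_cast {q a b : ℕ} (ha : a < q) (hb : b < q) (h : (a : ZMod q) = (b : ZMod q)) :
    a = b := by
  have h1 := (ZMod.natCast_eq_natCast_iff' a b q).1 h
  rwa [Nat.mod_eq_of_lt ha, Nat.mod_eq_of_lt hb] at h1

theorem OFB_zero {q a : ℕ} (ha : a < q) (h : (a : ZMod q) = 0) : a = 0 := by
  apply OFB_cast ha (lt_of_le_of_lt (Nat.zero_le a) ha)
  rw [h, Nat.cast_zero]

theorem OFB_p_inj {s : ℕ} (hs : 2 ≤ s) : Function.Injective (OFB_p s) := by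
  rintro ⟨i, b⟩ ⟨j, b'⟩ h
  have hi := i.2
  have hj := j.2
  unfold OFB_p at h
  cases b <;> cases b'
  · simp only [if_true] at h
    have h1 := OFB_cast (by omega) (by omega) (Option.some_injective _ h)
    rw [Fin.ext h1]
  · exfalso
    by_cases hj0 : (j : ℕ) = 0
    · simp [hj0] at h
    · simp only [if_true, hj0, if_false, Bool.true_eq_false] at h
      have h1 : ((i : ℕ) : ZMod (2 * s - 1)) = -((j : ℕ) : ZMod (2 * s - 1)) :=
        Option.some_injective _ h
      have h2 : (((i : ℕ) + (j : ℕ) : ℕ) : ZMod (2 * s - 1)) = 0 := by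
        push_cast
        rw [h1]
        ring
      have h3 := OFB_zero (by omega) h2
      omega
  · exfalso
    by_cases hi0 : (i : ℕ) = 0
    · simp [hi0] at h
    · simp only [if_true, hi0, if_false, Bool.true_eq_false] at h
      have h1 : -((i : ℕ) : ZMod (2 * s - 1)) = ((j : ℕ) : ZMod (2 * s - 1)) :=
        Option.some_injective _ h
      have h2 : (((i : ℕ) + (j : ℕ) : ℕ) : ZMod (2 * s - 1)) = 0 := by
        push_cast
        rw [← h1]
        ring
      have h3 := OFB_zero (by omega) h2
      omega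
  · by_cases hi0 : (i : ℕ) = 0
    · by_cases hj0 : (j : ℕ) = 0
      · rw [Fin.ext (hi0.trans hj0.symm)]
      · simp [hi0, hj0] at h
    · by_cases hj0 : (j : ℕ) = 0
      · simp [hi0, hj0] at h
      · simp only [hi0, hj0, if_false, Bool.true_eq_false] at h
        have h1 : -((i : ℕ) : ZMod (2 * s - 1)) = -((j : ℕ) : ZMod (2 * s - 1)) :=
          Option.some_injective _ h
        have h2 := OFB_cast (by omega) (by omega) (neg_injective h1)
        rw [Fin.ext h2]

theorem OFB_swap {s : ℕ} (hs : 2 ≤ s) (h : ZMod (2 * s - 1)) (i : Fin s) (b : Bool) :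
    OFB_g h 0 (OFB_p s (i, b)) = OFB_p s (i, !b) := by
  have hi := i.2
  unfold OFB_p
  cases b
  · simp only [if_true, Bool.not_false, Bool.true_eq_false, if_false]
    by_cases hi0 : (i : ℕ) = 0
    · rw [if_pos hi0, OFB_some_t]
      rw [hi0, Nat.cast_zero, add_zero]
    · rw [if_neg hi0, OFB_some_f, zero_sub]
      intro h1
      have h2 : (((i : ℕ) + (i : ℕ) : ℕ) : ZMod (2 * s - 1)) = 0 := by
        push_cast
        exact h1
      have h3 := OFB_zero (by omega) h2
      omega
  · simp only [if_true, Bool.not_true, Bool.true_eq_false, if_false]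
    by_cases hi0 : (i : ℕ) = 0
    · rw [if_pos hi0, OFB_none, zero_mul, hi0, Nat.cast_zero]
    · rw [if_neg hi0, OFB_some_f, zero_sub, neg_neg]
      intro h1
      have h2 : (((i : ℕ) + (i : ℕ) : ℕ) : ZMod (2 * s - 1)) = 0 := by
        push_cast
        linear_combination -h1
      have h3 := OFB_zero (by omega) h2
      omega

/-- Block OFB. -/
theorem stmt_OFB : Stmt_OFB := by
  intro s hs
  have hq : NeZero (2 * s - 1) := ⟨by omega⟩
  set h : ZMod (2 * s - 1) := (s : ZMod (2 * s - 1)) with hh0
  have hh : h + h = 1 := by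
    have h1 : (((s + s : ℕ)) : ZMod (2 * s - 1)) = ((1 : ℕ) : ZMod (2 * s - 1)) := by
      rw [ZMod.natCast_eq_natCast_iff']
      have h2 : s + s = 1 + (2 * s - 1) := by omega
      rw [h2, Nat.add_mod_right]
    rw [Nat.cast_add, Nat.cast_one] at h1
    exact h1
  have hbij : Function.Bijective (OFB_p s) := by
    rw [Fintype.bijective_iff_injective_and_card]
    refine ⟨OFB_p_inj hs, ?_⟩
    rw [Fintype.card_prod, Fintype.card_fin, Fintype.card_bool, Fintype.card_option, ZMod.card]
    omega
  set φ : Fin s × Bool ≃ Option (ZMod (2 * s - 1)) := Equiv.ofBijective _ hbij with hφ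
  have hφa : ∀ v, φ v = OFB_p s v := fun v => rfl
  set cc : Fin (2 * s - 2) → ZMod (2 * s - 1) := fun j => (((j : ℕ) + 1 : ℕ) : ZMod (2 * s - 1))
    with hcc
  have hc0 : ∀ j, cc j ≠ 0 := by
    intro j hj
    have := OFB_zero (by have := j.2; omega) hj
    omega
  have hcinj : Function.Injective cc := by
    intro j j' hj
    have h1 := OFB_cast (by have := j.2; omega) (by have := j'.2; omega) hj
    apply Fin.ext
    omega
  have hcsurj : ∀ c : ZMod (2 * s - 1), c ≠ 0 → ∃ j, cc j = c := by
    intro c hc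
    have h1 : c.val < 2 * s - 1 := ZMod.val_lt c
    have h2 : c.val ≠ 0 := fun h => hc ((ZMod.val_eq_zero c).1 h)
    refine ⟨⟨c.val - 1, by omega⟩, ?_⟩
    have h3 : c.val - 1 + 1 = c.val := by omega
    simp only [hcc, h3]
    exact ZMod.natCast_zmod_val c
  refine ⟨fun c v => φ.symm (OFB_g h (cc c) (φ v)), ?_, ?_, ?_, ?_⟩
  · intro c v
    simp only [Equiv.apply_symm_apply]
    rw [OFB_inv hh, Equiv.symm_apply_apply]
  · rintro c ⟨i, b⟩ h1
    set w := φ.symm (OFB_g h (cc c) (φ (i, b))) with hw
    have h2 : φ w = OFB_g h (cc c) (φ (i, b)) := by rw [hw, Equiv.apply_symm_apply]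
    have h3 : w.2 = b ∨ w.2 = !b := by
      cases w.2 <;> cases b <;> simp
    rcases h3 with h3 | h3
    · have h4 : w = (i, b) := Prod.ext h1 h3
      rw [h4] at h2
      exact OFB_ne _ _ h2.symm
    · have h4 : w = (i, !b) := Prod.ext h1 h3
      rw [h4, hφa, hφa, ← OFB_swap hs h] at h2
      exact hc0 c (OFB_inj hh h2).symm
  · intro c c' v h1
    have h2 := φ.symm.injective h1
    exact hcinj (OFB_inj hh h2)
  · rintro ⟨i, b⟩ ⟨j, b'⟩ hvw
    have hne : φ (i, b) ≠ φ (j, b') := by
      intro h1
      exact hvw (congrArg Prod.fst (φ.injective h1))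
    obtain ⟨c, hc⟩ := OFB_ex hh hne
    have hcne : c ≠ 0 := by
      intro h0
      rw [h0, hφa, OFB_swap hs h, ← hφa] at hc
      have h5 := congrArg Prod.fst (φ.injective hc)
      exact hvw h5
    obtain ⟨d, hd⟩ := hcsurj c hcne
    refine ⟨d, ?_⟩
    change φ.symm (OFB_g h (cc d) (φ (i, b))) = (j, b')
    rw [hd, hc, Equiv.symm_apply_apply]

end Pool.Agent.Work.MP_1ce445_n3
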