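import Pool.Agent.Work.MP_1ce445_n3.Interface

/-!
Block OPT3 of MP_1ce445_n3: the optimization.
-/

namespace Pool.Agent.Work.MP_1ce445_n3

open Finset Pool.Agent.Work.MP_1ce445_co_56 Pool.Agent.Work.MP_1ce445_lin

theorem OPT3_one (n : ℝ) (hn : 8 ≤ n) (e g : ℕ) (h1 : (e : ℝ) + 4 * g ≤ 4 * n)
    (h2 : 0 < e → (g : ℝ) + 2 ≤ n) :
    (g : ℝ) ≤ n * (1 - 2 / n) ^ ((e : ℝ) / 8) := by
  have hn0 : 0 < n := by linarith
  have hq : 2 / n ≤ 1 / 4 := by
    rw [div_le_iff₀ hn0]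
    linarith
  have hq0 : 0 < 2 / n := by positivity
  have hx : 0 < 1 - 2 / n := by linarith
  rcases Nat.eq_zero_or_pos e with h0 | hp
  · subst h0
    have : ((0 : ℕ) : ℝ) / 8 = 0 := by norm_num
    rw [this, Real.rpow_zero]
    push_cast at h1
    linarith
  · have h3 := h2 hp
    have hB : 1 + (n - g) / 2 * (-(2 / n)) ≤ (1 + -(2 / n)) ^ ((n - g) / 2) :=
      one_add_mul_self_le_rpow_one_add (by linarith) (by linarith)
    have h4 : n * (1 + (n - g) / 2 * (-(2 / n))) = g := by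
      field_simp
      ring
    have h5 : (1 + -(2 / n)) = 1 - 2 / n := by ring
    rw [h5] at hB
    have h6 : (1 - 2 / n) ^ ((n - g) / 2) ≤ (1 - 2 / n) ^ ((e : ℝ) / 8) := by
      apply Real.rpow_le_rpow_of_exponent_ge hx (by linarith)
      linarith
    calc (g : ℝ) = n * (1 + (n - g) / 2 * (-(2 / n))) := h4.symm
      _ ≤ n * (1 - 2 / n) ^ ((n - g) / 2) := mul_le_mul_of_nonneg_left hB hn0.le
      _ ≤ n * (1 - 2 / n) ^ ((e : ℝ) / 8) := mul_le_mul_of_nonneg_left h6 hn0.le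

theorem stmt_OPT3 : Stmt_OPT3 := by
  intro s e g hs h1 h2 h3
  have hsr : (2 : ℝ) ≤ s := by exact_mod_cast hs
  obtain ⟨n, hn⟩ : ∃ n : ℝ, n = 4 * (s : ℝ) := ⟨_, rfl⟩
  have hn8 : 8 ≤ n := by linarith
  have hn0 : 0 < n := by linarith
  have hx : 0 < 1 - 2 / n := by
    have : 2 / n ≤ 1 / 4 := by
      rw [div_le_iff₀ hn0]
      linarith
    linarith
  have h4 : ∀ j, (g j : ℝ) ≤ n * (1 - 2 / n) ^ ((e j : ℝ) / 8) := by
    intro j
    apply OPT3_one n hn8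
    · have := h1 j
      have h5 : ((e j + 4 * g j : ℕ) : ℝ) ≤ ((4 * (4 * s) : ℕ) : ℝ) := by exact_mod_cast this
      push_cast at h5
      rw [hn]
      linarith
    · intro hp
      have := h2 j hp
      have h5 : ((g j + 2 : ℕ) : ℝ) ≤ ((4 * s : ℕ) : ℝ) := by exact_mod_cast this
      push_cast at h5
      rw [hn]
      linarith
  have h5 : ∏ j, (g j : ℝ) ≤ ∏ j : Fin (4 * s - 3), (n * (1 - 2 / n) ^ ((e j : ℝ) / 8)) :=
    Finset.prod_le_prod (fun j _ => Nat.cast_nonneg _) (fun j _ => h4 j)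
  rw [Finset.prod_mul_distrib, ← Real.rpow_sum_of_pos hx, Finset.prod_const, Finset.card_univ,
    Fintype.card_fin, ← Finset.sum_div] at h5
  have h6 : ∑ j, (e j : ℝ) = 8 * s := by
    have : ((∑ j, e j : ℕ) : ℝ) = ((2 * (4 * s) : ℕ) : ℝ) := by rw [h3]
    push_cast at this
    linarith
  have h7 : ∑ j, (e j : ℝ) / 8 = ((s : ℕ) : ℝ) := by
    rw [← Finset.sum_div, h6]
    ring
  have h8 : (∑ j, (e j : ℝ)) / 8 = ((s : ℕ) : ℝ) := by
    rw [h6]
    ring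
  rw [h8, Real.rpow_natCast] at h5
  have h9 : n ^ (4 * s - 3) * (1 - 2 / n) ^ s = n ^ (3 * s - 3) * (n - 2) ^ s := by
    have h10 : 4 * s - 3 = (3 * s - 3) + s := by omega
    rw [h10, pow_add, mul_assoc, ← mul_pow]
    have h11 : n * (1 - 2 / n) = n - 2 := by
      field_simp
    rw [h11]
  rw [h9] at h5
  have h12 : ((∏ j, g j : ℕ) : ℝ) ≤ (((4 * s) ^ (3 * s - 3) * (4 * s - 2) ^ s : ℕ) : ℝ) := by
    push_cast [Nat.cast_sub (show 2 ≤ 4 * s by omega)]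
    rw [hn] at h5
    exact h5
  exact_mod_cast h12

end Pool.Agent.Work.MP_1ce445_n3
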