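import Pool.Agent.Work.MP_1ce445_n3.Interface

/-!
Block TWO: a graph with degrees 1, 2, 3, an even number of vertices and some degree at least 2 has a total
dominating set which misses two vertices.
-/

set_option autoImplicit false

namespace Pool.Agent.Work.MP_1ce445_n3

open Finset Pool.Agent.Work.MP_1ce445_co_56 Pool.Agent.Work.MP_1ce445_lin

section TWO

set_option linter.unusedSectionVars false

variable {V : Type} [Fintype V] [DecidableEq V]

theorem TWO_ex {G : SimpleGraph V} {v : V} (hv : 1 ≤ dg G v) : ∃ x, G.Adj v x := by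
  classical
  unfold dg at hv
  obtain ⟨x, hx⟩ := card_pos.1 hv
  exact ⟨x, by simpa using hx⟩

theorem TWO_one {G : SimpleGraph V} {v x y : V} (hv : dg G v = 1) (hx : G.Adj v x) (hy : G.Adj v y) :
    x = y := by
  classical
  unfold dg at hv
  obtain ⟨z, hz⟩ := card_eq_one.1 hv
  have h1 : x ∈ ({z} : Finset V) := hz ▸ (by simpa using hx)
  have h2 : y ∈ ({z} : Finset V) := hz ▸ (by simpa using hy)
  rw [mem_singleton.1 h1, mem_singleton.1 h2]

theorem TWO_ge {G : SimpleGraph V} {v x y : V} (hxy : x ≠ y) (hx : G.Adj v x) (hy : G.Adj v y) :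
    2 ≤ dg G v := by
  classical
  unfold dg
  exact one_lt_card.2 ⟨x, by simpa using hx, y, by simpa using hy, hxy⟩

/-- the sum over a set is at most the sum over all vertices -/
theorem TWO_sum (G : SimpleGraph V) (A : Finset V) :
    ∑ v ∈ A, (dg G v - 1) ≤ ∑ v, (dg G v - 1) :=
  sum_le_sum_of_subset (subset_univ A)

/-- a pair `R` such that every vertex has a neighbour outside `R` -/
theorem TWO_pair {G : SimpleGraph V} {x y : V} (hxy : x ≠ y)
    (h : ∀ u, ∃ w, G.Adj u w ∧ w ≠ x ∧ w ≠ y) : gammaT G + 2 ≤ Fintype.card V := by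
  classical
  have hT : IsTDS G (univ \ {x, y}) := by
    intro u
    obtain ⟨w, hw, hwx, hwy⟩ := h u
    exact ⟨w, by simp [hwx, hwy], hw⟩
  have h4 := gammaT_le_card hT
  have h5 : (univ \ {x, y} : Finset V).card + ({x, y} : Finset V).card = Fintype.card V := by
    rw [← card_univ]
    exact card_sdiff_add_card_eq_card (subset_univ _)
  rw [card_pair hxy] at h5
  omega

/-- `x` is the only neighbour of some vertex different from `v` -/
def TWO_needed (G : SimpleGraph V) (v x : V) : Prop :=
  ∃ u, u ≠ v ∧ G.Adj u x ∧ ∀ w, G.Adj u w → w = x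

theorem TWO_a {G : SimpleGraph V} (h : ∀ v, 1 ≤ dg G v ∧ dg G v ≤ 3)
    (hE : ∑ v, (dg G v - 1) ≤ 4) {v x y z : V} (hv : dg G v = 3) (hx : G.Adj v x)
    (hy : G.Adj v y) (hz : G.Adj v z) (hxy : x ≠ y) (hxz : x ≠ z) (hyz : y ≠ z)
    (hnx : ¬ TWO_needed G v x) (hny : ¬ TWO_needed G v y) : gammaT G + 2 ≤ Fintype.card V := by
  classical
  refine TWO_pair hxy (fun u => ?_)
  by_cases huv : u = v
  · subst huv
    exact ⟨z, hz, hxz.symm, hyz.symm⟩
  · by_contra hcon
    push Not at hcon
    obtain ⟨w, hw⟩ := TWO_ex (h u).1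
    have hux : G.Adj u x := by
      by_contra hux
      apply hny
      have hall : ∀ w, G.Adj u w → w = y := by
        intro w hw
        apply hcon w hw
        rintro rfl
        exact hux hw
      refine ⟨u, huv, ?_, hall⟩
      rw [← hall w hw]
      exact hw
    have huy : G.Adj u y := by
      by_contra huy
      apply hnx
      have hall : ∀ w, G.Adj u w → w = x := by
        intro w hw
        by_contra hwx
        have := hcon w hw hwx
        subst this
        exact huy hw
      refine ⟨u, huv, ?_, hall⟩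
      rw [← hall w hw]
      exact hw
    have h1 := TWO_ge hxy hux huy
    have h2 := TWO_ge huv hux.symm hx.symm
    have h3 := TWO_ge huv huy.symm hy.symm
    have h4 := TWO_sum G ({v, u, x, y} : Finset V)
    rw [sum_insert (by simp [Ne.symm huv, hx.ne, hy.ne]), sum_insert (by simp [hux.ne, huy.ne]),
      sum_insert (by simp [hxy]), sum_singleton] at h4
    omega

theorem TWO_b {G : SimpleGraph V} (h : ∀ v, 1 ≤ dg G v ∧ dg G v ≤ 3)
    (hE : ∑ v, (dg G v - 1) ≤ 4) {v x y z : V} (hv : dg G v = 3) (hx : G.Adj v x)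
    (hy : G.Adj v y) (hz : G.Adj v z) (hxy : x ≠ y) (hxz : x ≠ z) (hyz : y ≠ z)
    (hnx : TWO_needed G v x) (hny : TWO_needed G v y) : gammaT G + 2 ≤ Fintype.card V := by
  classical
  obtain ⟨x', hx'v, hx'x, hx'⟩ := hnx
  obtain ⟨y', hy'v, hy'y, hy'⟩ := hny
  have h2 := TWO_ge hx'v hx'x.symm hx.symm
  have h3 := TWO_ge hy'v hy'y.symm hy.symm
  have hz1 : dg G z = 1 := by
    have h4 := TWO_sum G ({v, z, x, y} : Finset V)
    rw [sum_insert (by simp [hz.ne, hx.ne, hy.ne]), sum_insert (by simp [hxz.symm, hyz.symm]),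
      sum_insert (by simp [hxy]), sum_singleton] at h4
    have := (h z).1
    omega
  have hx'z : x' ≠ z := by
    rintro rfl
    exact hx.ne (hx' v hz.symm)
  have hyx' : y ≠ x' := by
    rintro rfl
    exact hx.ne (hx' v hy.symm)
  refine TWO_pair hx'z (fun u => ?_)
  by_cases hux : u = x
  · subst hux
    exact ⟨v, hx.symm, hx'v.symm, hz.ne⟩
  · by_cases huv : u = v
    · subst huv
      exact ⟨y, hy, hyx', hyz⟩
    · obtain ⟨w, hw⟩ := TWO_ex (h u).1
      refine ⟨w, hw, ?_, ?_⟩
      · rintro rfl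
        exact hux (hx' u hw.symm)
      · rintro rfl
        exact huv (TWO_one hz1 hw.symm hz.symm)

end TWO

theorem stmt_TWO (h1 : Stmt_LO3) (h2 : Pool.Agent.Work.MP_1ce445_ex.Stmt_LOS) : Stmt_TWO := by
  intro V _ _ G h hev hex
  classical
  by_cases hE : ∑ v, (dg G v - 1) ≤ 4
  · by_cases h3 : ∃ v, dg G v = 3
    · obtain ⟨v, hv⟩ := h3
      have hv' := hv
      unfold dg at hv'
      obtain ⟨x, y, z, hxy, hxz, hyz, hs⟩ := card_eq_three.1 hv'
      have hmem : ∀ w, w ∈ ({x, y, z} : Finset V) → G.Adj v w := by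
        intro w hw
        rw [← hs] at hw
        simpa using hw
      have hx : G.Adj v x := hmem x (by simp)
      have hy : G.Adj v y := hmem y (by simp)
      have hz : G.Adj v z := hmem z (by simp)
      by_cases nx : TWO_needed G v x
      · by_cases ny : TWO_needed G v y
        · exact TWO_b h hE hv hx hy hz hxy hxz hyz nx ny
        · by_cases nz : TWO_needed G v z
          · exact TWO_b h hE hv hx hz hy hxz hxy hyz.symm nx nz
          · exact TWO_a h hE hv hy hz hx hyz hxy.symm hxz.symm ny nz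
      · by_cases ny : TWO_needed G v y
        · by_cases nz : TWO_needed G v z
          · exact TWO_b h hE hv hy hz hx hyz hxy.symm hxz.symm ny nz
          · exact TWO_a h hE hv hx hz hy hxz hxy hyz.symm nx nz
        · exact TWO_a h hE hv hx hy hz hxy hxz hyz nx ny
    · have h' : ∀ v, 1 ≤ dg G v ∧ dg G v ≤ 2 := by
        intro v
        have := h v
        have h4 : dg G v ≠ 3 := fun hh => h3 ⟨v, hh⟩
        omega
      refine ((h2 G h').2 hev).2 ?_
      obtain ⟨v, hv⟩ := hex
      refine card_pos.2 ⟨v, ?_⟩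
      simp only [mem_filter, mem_univ, true_and]
      have := h' v
      omega
  · have h4 := h1 G h
    omega

end Pool.Agent.Work.MP_1ce445_n3
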