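import Pool.Agent.Work.MP_1ce445_n3.Interface

/-!
Block UPE3 (MP_1ce445_co): `P n (n - 3) ≤ exp (-1/2) n ^ (n - 3)` for all `n ≥ 7`.
-/

namespace Pool.Agent.Work.MP_1ce445_n3

open Finset Pool.Agent.Work.MP_1ce445_co_56 Pool.Agent.Work.MP_1ce445_lin

/-- UPE3 (uses LO3): in every factor `4 gammaT ≤ 4 n - e`, `∑ e = 2 n`, so `∏ gammaT / n ≤ exp (-∑ e / (4 n))`. -/
def Stmt_UPE3 : Prop :=
  ∀ n : ℕ, 7 ≤ n → (P n (n - 3) : ℝ) ≤ Real.exp (-(1 / 2)) * (n : ℝ) ^ (n - 3)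

/-- In a factorization into `n - 3` factors the total excess of a vertex is 2. -/
theorem UPE3_deg {n : ℕ} (h7 : 7 ≤ n) {G : Fin (n - 3) → SimpleGraph (Fin n)}
    (hG : IsFactorization G) (v : Fin n) :
    (∀ j, 1 ≤ dg (G j) v ∧ dg (G j) v ≤ 3) ∧ ∑ j, (dg (G j) v - 1) = 2 := by
  classical
  have hsum : ∑ j, dg (G j) v = n - 1 := by
    have h := sum_degree hG v
    rw [Fintype.card_fin] at h
    rw [← h]
    refine sum_congr rfl fun j _ => ?_
    unfold dg
    congr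
  have h1 : ∀ j, 1 ≤ dg (G j) v := by
    intro j
    obtain ⟨w, hw⟩ := hG.minDeg j v
    unfold dg
    rw [Nat.one_le_iff_ne_zero, ← Nat.pos_iff_ne_zero, card_pos]
    exact ⟨w, by simpa using hw⟩
  have hsum1 : ∑ j, (dg (G j) v - 1) = 2 := by
    have h2 : ∑ j, (dg (G j) v - 1) + ∑ _j : Fin (n - 3), 1 = ∑ j, dg (G j) v := by
      rw [← sum_add_distrib]
      refine sum_congr rfl fun j _ => ?_
      have := h1 j
      omega
    rw [hsum, sum_const, card_univ, Fintype.card_fin, smul_eq_mul, mul_one] at h2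
    omega
  refine ⟨fun j => ⟨h1 j, ?_⟩, hsum1⟩
  have h3 : dg (G j) v - 1 ≤ ∑ j, (dg (G j) v - 1) :=
    single_le_sum (f := fun j => dg (G j) v - 1) (fun _ _ => Nat.zero_le _) (mem_univ j)
  omega

theorem UPE3_sum {n : ℕ} (h7 : 7 ≤ n) {G : Fin (n - 3) → SimpleGraph (Fin n)}
    (hG : IsFactorization G) : ∑ j, ∑ v, (dg (G j) v - 1) = 2 * n := by
  rw [sum_comm]
  calc ∑ v, ∑ j, (dg (G j) v - 1) = ∑ _v : Fin n, 2 :=
        sum_congr rfl fun v _ => (UPE3_deg h7 hG v).2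
    _ = 2 * n := by rw [sum_const, card_univ, Fintype.card_fin, smul_eq_mul, mul_comm]

theorem stmt_UPE3 (h : Stmt_LO3) : Stmt_UPE3 := by
  classical
  intro n h7
  have hn : (0 : ℝ) < n := by
    have : 0 < n := by omega
    exact_mod_cast this
  rcases P_attained n (n - 3) with h0 | ⟨G, hG, hP⟩
  · rw [h0]
    push_cast
    positivity
  · rw [hP]
    push_cast
    have key : ∀ j, (gammaT (G j) : ℝ) ≤
        Real.exp (-((∑ v, (dg (G j) v - 1) : ℕ) : ℝ) / (4 * n)) * n := by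
      intro j
      have h1 := h (G j) (fun v => (UPE3_deg h7 hG v).1 j)
      rw [Fintype.card_fin] at h1
      have h2 : ((∑ v, (dg (G j) v - 1) : ℕ) : ℝ) + 4 * (gammaT (G j) : ℝ) ≤ 4 * n := by
        exact_mod_cast h1
      have h3 := Real.add_one_le_exp (-((∑ v, (dg (G j) v - 1) : ℕ) : ℝ) / (4 * n))
      have h4 := mul_le_mul_of_nonneg_right h3 hn.le
      refine le_trans ?_ h4
      have h5 : (-((∑ v, (dg (G j) v - 1) : ℕ) : ℝ) / (4 * n) + 1) * n =
          n - ((∑ v, (dg (G j) v - 1) : ℕ) : ℝ) / 4 := by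
        field_simp
        ring
      rw [h5]
      linarith
    calc ∏ j, (gammaT (G j) : ℝ)
        ≤ ∏ j, (Real.exp (-((∑ v, (dg (G j) v - 1) : ℕ) : ℝ) / (4 * n)) * n) :=
          prod_le_prod (fun j _ => Nat.cast_nonneg _) fun j _ => key j
      _ = Real.exp (-(1 / 2)) * (n : ℝ) ^ (n - 3) := by
          rw [prod_mul_distrib, ← Real.exp_sum, prod_const, card_univ, Fintype.card_fin]
          congr 2
          rw [← sum_div, sum_neg_distrib, ← Nat.cast_sum, UPE3_sum h7 hG]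
          push_cast
          field_simp
          norm_num

end Pool.Agent.Work.MP_1ce445_n3
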