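import Pool.Agent.Work.MP_1ce445_n3.Interface

set_option autoImplicit false

namespace Pool.Agent.Work.MP_1ce445_n3

open Finset Pool.Agent.Work.MP_1ce445_co_56 Pool.Agent.Work.MP_1ce445_lin

/-- In a factorization of the complete graph on `4 s` points into `4 s - 3` factors all degrees are at most three, and
the total excess of a vertex is two. -/
theorem UPT_deg {s : ℕ} (h2 : 2 ≤ s) {G : Fin (4 * s - 3) → SimpleGraph (Fin (4 * s))} (hG : IsFactorization G)
    (v : Fin (4 * s)) : (∀ j, 1 ≤ dg (G j) v ∧ dg (G j) v ≤ 3) ∧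
      ∑ j, (dg (G j) v - 1) = 2 := by
  classical
  have hsum : ∑ j, dg (G j) v = 4 * s - 1 := by
    have h := sum_degree hG v
    rw [Fintype.card_fin] at h
    rw [← h]
    refine sum_congr rfl fun j _ => ?_
    unfold dg
    congr
  have h1 : ∀ j, 1 ≤ dg (G j) v := by
    intro j
    obtain ⟨w, hw⟩ := hG.minDeg j v
    unfold dg
    rw [Nat.one_le_iff_ne_zero, ← Nat.pos_iff_ne_zero, card_pos]
    exact ⟨w, by simpa using hw⟩
  have hsum1 : ∑ j, (dg (G j) v - 1) = 2 := by
    have h2 : ∑ j, (dg (G j) v - 1) + ∑ _j : Fin (4 * s - 3), 1 = ∑ j, dg (G j) v := by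
      rw [← sum_add_distrib]
      refine sum_congr rfl fun j _ => ?_
      have := h1 j
      omega
    rw [hsum, sum_const, card_univ, Fintype.card_fin, smul_eq_mul, mul_one] at h2
    omega
  have h2 : ∀ j, dg (G j) v ≤ 3 := by
    intro j
    have h3 : dg (G j) v - 1 ≤ ∑ j, (dg (G j) v - 1) :=
      single_le_sum (f := fun j => dg (G j) v - 1) (fun _ _ => Nat.zero_le _) (mem_univ j)
    omega
  exact ⟨fun j => ⟨h1 j, h2 j⟩, hsum1⟩

/-- UPT. -/
theorem stmt_UPT (h1 : Stmt_LO3) (h2 : Stmt_TWO) (h3 : Stmt_OPT3) : Stmt_UPT := by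
  classical
  intro s hs
  refine P_le fun G hG => ?_
  refine h3 s (fun j => ∑ v, (dg (G j) v - 1)) (fun j => gammaT (G j)) hs ?_ ?_ ?_
  · intro j
    have h := h1 (G j) (fun v => (UPT_deg hs hG v).1 j)
    rw [Fintype.card_fin] at h
    exact h
  · intro j hj
    have hev : Even (Fintype.card (Fin (4 * s))) := by
      rw [Fintype.card_fin]
      exact ⟨2 * s, by ring⟩
    have hex : ∃ v, 2 ≤ dg (G j) v := by
      by_contra hcon
      push Not at hcon
      have h0 : ∑ v, (dg (G j) v - 1) = 0 := by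
        refine sum_eq_zero fun v _ => ?_
        have := hcon v
        omega
      have hj2 : 0 < ∑ v, (dg (G j) v - 1) := hj
      omega
    have h := h2 (G j) (fun v => (UPT_deg hs hG v).1 j) hev hex
    rw [Fintype.card_fin] at h
    exact h
  · calc ∑ j, ∑ v, (dg (G j) v - 1)
        = ∑ v, ∑ j, (dg (G j) v - 1) := sum_comm
      _ = ∑ _v : Fin (4 * s), 2 := sum_congr rfl fun v _ => (UPT_deg hs hG v).2
      _ = 2 * (4 * s) := by
          rw [sum_const, card_univ, Fintype.card_fin, smul_eq_mul, mul_comm]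

end Pool.Agent.Work.MP_1ce445_n3
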