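import Pool.Agent.Work.MP_1ce445_n3.CST
import Pool.Agent.Work.MP_1ce445_n3.CMB
import Pool.Agent.Work.MP_1ce445_n3.CMA
import Pool.Agent.Work.MP_1ce445_n3.LO3
import Pool.Agent.Work.MP_1ce445_n3.TWO
import Pool.Agent.Work.MP_1ce445_n3.OPT3
import Pool.Agent.Work.MP_1ce445_n3.UPT
import Pool.Agent.Work.MP_1ce445_n3.LSQ
import Pool.Agent.Work.MP_1ce445_n3.OFB
import Pool.Agent.Work.MP_1ce445_n3.KDT
import Pool.Agent.Work.MP_1ce445_n3.LOT
import Pool.Agent.Work.MP_1ce445_n3.EN3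
import Pool.Agent.Work.MP_1ce445_n3.UPE3
import Pool.Agent.Work.MP_1ce445_ex.LOS
import Pool.Agent.Work.MP_1ce445_ex.ASM

/-!
The exact value of `P n (n - 3)` for `n` divisible by 4: all blocks together.
-/

namespace Pool.Agent.Work.MP_1ce445_n3

open Finset Pool.Agent.Work.MP_1ce445_co_56

theorem hCMA : Stmt_CMA := stmt_CMA stmt_CST (stmt_CMB stmt_CST)

theorem hLO3 : Stmt_LO3 := stmt_LO3 hCMA

theorem hTWO : Stmt_TWO := stmt_TWO hLO3 Pool.Agent.Work.MP_1ce445_ex.stmt_LOS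

theorem hUPT : Stmt_UPT := stmt_UPT hLO3 hTWO stmt_OPT3

theorem hLOT : Stmt_LOT :=
  stmt_LOT Pool.Agent.Work.MP_1ce445_ex.stmt_ASM (stmt_KDT stmt_LSQ stmt_OFB)

/-- the exact value -/
theorem hEN3 : Stmt_EN3 := stmt_EN3 hUPT hLOT

/-- the upper bound for all `n` -/
theorem hUPE3 : Stmt_UPE3 := stmt_UPE3 hLO3

end Pool.Agent.Work.MP_1ce445_n3
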