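import Pool.Agent.Work.MP_1ce445_n3.Interface

/-!
Block EN3 of the table `ext3_blocks` (MP_1ce445_co).
-/

namespace Pool.Agent.Work.MP_1ce445_n3

open Finset Pool.Agent.Work.MP_1ce445_co_56 Pool.Agent.Work.MP_1ce445_lin

theorem stmt_EN3 (h1 : Stmt_UPT) (h2 : Stmt_LOT) : Stmt_EN3 := by
  intro n h4 h12
  obtain ⟨s, rfl⟩ : ∃ s, n = 4 * s := ⟨n / 4, by omega⟩
  have e1 : 4 * s / 4 = s := by omega
  have e2 : 4 * s - 3 - s = 3 * s - 3 := by omega
  rw [e1, e2]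
  exact le_antisymm (h1 s (by omega)) (h2 s (by omega))

end Pool.Agent.Work.MP_1ce445_n3
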