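import Pool.Agent.Work.MP_1ce445_ex.Interface

/-!
MP_1ce445_co: the exact value of `P n (n - 3)` for all `n` divisible by 4, `n ≥ 12`:
`P n (n - 3) = n ^ (n - 3 - n / 4) * (n - 2) ^ (n / 4)`. Statements of the blocks, with complete proofs in the docstrings.
Blocks: CST CMB CMA LO3 TWO OPT3 UPT LSQ OFB KDT LOT EN3.

One file `Pool/Agent/Work/MP_1ce445_n3/<ID>.lean` per block, `import Pool.Agent.Work.MP_1ce445_n3.Interface`,
same `open` lines, theorem `stmt_<ID>` with exactly the statements of the column `uses` as hypotheses, in this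
order (LOS, ASM = `Pool.Agent.Work.MP_1ce445_ex.Stmt_LOS`, `Pool.Agent.Work.MP_1ce445_ex.Stmt_ASM`); auxiliary lemmas with the
name of the block in front (`CMB_aux`).

Overview. UPPER BOUND: in a factorization with `n - 3` factors every vertex has total excess `∑_j (dg (G j) v - 1) = 2`, all degrees
are `≤ 3`; a graph with degrees `1, 2, 3` has `4 gammaT ≤ 4 |V| - ∑ (dg v - 1)` (transversals of hypergraphs of rank 3, Chvatal
and McDiarmid), and `gammaT ≤ |V| - 2` if `|V|` is even and some degree is `≥ 2`. LOWER BOUND: `n = 4 s`, the blocks are `s` copies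
of `K_4`, factor `t` is the complete graph on the block `t` and a perfect matching of the rest.
-/

namespace Pool.Agent.Work.MP_1ce445_n3

open Finset Pool.Agent.Work.MP_1ce445_co_56 Pool.Agent.Work.MP_1ce445_lin

/-! ### Transversals of hypergraphs of rank 3 -/

/-- `HT e J n`: the family `e i`, `i ∈ J`, has a transversal `S` with `4 |S| + n ≤ |⋃ e i| + ∑ (4 - |e i|)`. -/
def HT {X ι : Type} [DecidableEq X] [DecidableEq ι] (e : ι → Finset X) (J : Finset ι) (n : ℕ) : Prop :=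
  ∃ S : Finset X, (∀ i ∈ J, (e i ∩ S).Nonempty) ∧
    4 * S.card + n ≤ (J.biUnion e).card + ∑ i ∈ J, (4 - (e i).card)

/-- the number of the members of the family which contain `x` -/
def dj {X ι : Type} [DecidableEq X] [DecidableEq ι] (e : ι → Finset X) (J : Finset ι) (x : X) : ℕ :=
  (J.filter (fun i => x ∈ e i)).card

/-- all members have three elements, all degrees are at most 2, two members have at most one common element -/
structure Nice {X ι : Type} [DecidableEq X] [DecidableEq ι] (e : ι → Finset X) (J : Finset ι) : Prop where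
  three : ∀ i ∈ J, (e i).card = 3
  two : ∀ x, dj e J x ≤ 2
  lin : ∀ i ∈ J, ∀ j ∈ J, i ≠ j → (e i ∩ e j).card ≤ 1

/-- some member has an element of degree 1 and an element of degree 2 -/
def PB {X ι : Type} [DecidableEq X] [DecidableEq ι] (e : ι → Finset X) (J : Finset ι) : Prop :=
  ∃ g ∈ J, ∃ a ∈ e g, ∃ y ∈ e g, dj e J a = 1 ∧ dj e J y = 2

/-- CST (60 lines). The step: `U` meets the removed members `J \ J'`; the elements of `Z` are in no member of `J'`. Take
`S = U ∪ S'`; `|J'.biUnion e| + |Z| ≤ |J.biUnion e|` and the sum over `J` is the sum over `J'` plus the sum over `J \ J'`. -/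
def Stmt_CST : Prop :=
  ∀ (X ι : Type) [DecidableEq X] [DecidableEq ι] (e : ι → Finset X) (J J' : Finset ι) (U Z : Finset X) (n n' : ℕ),
    J' ⊆ J → (∀ i ∈ J, i ∉ J' → (e i ∩ U).Nonempty) → Z ⊆ J.biUnion e →
    (∀ i ∈ J', ∀ z ∈ Z, z ∉ e i) → HT e J' n' →
    4 * U.card + n ≤ n' + Z.card + ∑ i ∈ J \ J', (4 - (e i).card) → HT e J n

/-- CMB (250 lines; uses CST). Let `g ∈ J`, `a, y ∈ e g`, `a` of degree 1, `y` of degree 2, `h ≠ g` the other member with
`y ∈ e h`. (i) If `e g ∪ e h` contains two elements `a ≠ a'` of degree 1: CST with `J' = J \ {g, h}`, `U = {y}`, `Z = {y, a, a'}`,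
`n' = 0`: `4 + 1 ≤ 0 + 3 + 2`. (ii) Otherwise `e g = {a, y, z1}` with `z1` of degree 2 in a member `k1 ≠ g`, `k1 ≠ h` (`lin`), and the two
elements `z2, z3` of `e h \ {y}` have degree 2 and are in members `k2`, `k3` (not `g`, not `h`), `k2 ≠ k3` (`lin`), so one of them, say
`k3`, is not `k1`. Let `J' = J \ {g, h}`: `z1` has degree 1 in `J'`, and `z3` too. If `e k1` has an element of degree 2 in `J'` then
`PB e J'` (with `k1`, `z1`), if `e k3` has one then also `PB e J'` (with `k3`, `z3`): CST with `U = {y}`, `Z = {y, a}`, `n' = 1`: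
`4 + 1 ≤ 1 + 2 + 2`. If all elements of `e k1` and of `e k3` have degree 1 in `J'`: `J'' = J \ {g, h, k1, k3}`, `U = {z1, z3}`,
`Z = {a, y} ∪ e k1 ∪ e k3` (8 elements: `e k1`, `e k3` are disjoint because the degrees in `J'` are 1, and `a`, `y` are in no member of
`J'`), `n' = 0`: `8 + 1 ≤ 0 + 8 + 4`. -/
def Stmt_CMB : Prop :=
  ∀ (X ι : Type) [DecidableEq X] [DecidableEq ι] (e : ι → Finset X) (J : Finset ι), Nice e J →
    (∀ J', J' ⊂ J → HT e J' 0) → (∀ J', J' ⊂ J → PB e J' → HT e J' 1) → PB e J → HT e J 1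

/-- CMA (250 lines; uses CST CMB). Strong induction on `|J|` for both statements: `HT e J 0`, and `Nice e J → PB e J → HT e J 1`
(the second is CMB; `J' ⊂ J` inherits `Nice`). First statement, `J` not empty. (1) Some `x` with `∑_(i ∋ x) (4 - |e i|) ≥ 3`: CST
with `J' = {i ∈ J | x ∉ e i}`, `U = Z = {x}`: `4 ≤ 1 + 3`. (It applies if some `|e i| = 1`.) (2) Otherwise, if `e i = {x, y}`: `x` and
`y` are in no other member; `J' = J.erase i`, `U = {x}`, `Z = {x, y}`: `4 ≤ 2 + 2`. (3) Otherwise all `|e i| = 3` and all degrees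
are `≤ 2`. (3a) Some `x ∈ e i` has degree 1. If `e i` has an element `y` of degree 2, `y ∈ e j`: `J' = J \ {i, j}`, `U = {y}`,
`Z = {x, y}`: `4 ≤ 2 + 2`. If not: `J' = J.erase i`, `U = {x}`, `Z = e i`: `4 ≤ 3 + 1`. (3b) All elements have degree 2, and
`e i ∩ e j` contains `y ≠ y'` for some `i ≠ j`: `J' = J \ {i, j}`, `U = {y}`, `Z = {y, y'}`: `4 ≤ 2 + 2`. (3c) All elements have
degree 2 and `Nice e J`: take `i ∈ J`, `x ∈ e i`, `j ≠ i` with `x ∈ e j`, `J' = J \ {i, j}`, `U = Z = {x}`, `n' = 1`: `4 ≤ 1 + 1 + 2`. To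
show `PB e J'`: let `a ∈ e i`, `a ≠ x`, and `g` the other member with `a ∈ e g`; `g ≠ j` (`lin`), so `g ∈ J'` and `a` has degree 1 in
`J'`. If all elements of `e g` had degree 1 in `J'` then `e g ⊆ e i ∪ e j`, but `|e g ∩ e i| ≤ 1` and `|e g ∩ e j| ≤ 1`. -/
def Stmt_CMA : Prop :=
  ∀ (X ι : Type) [DecidableEq X] [DecidableEq ι] (e : ι → Finset X) (J : Finset ι),
    (∀ i ∈ J, 1 ≤ (e i).card ∧ (e i).card ≤ 3) → HT e J 0

/-! ### Upper bound -/

/-- LO3 (80 lines; uses CMA). `e v` = set of the neighbours of `v`, `J = univ`. A transversal `S` is a total dominating set, so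
`gammaT G ≤ |S|` (`gammaT_le_card`), `|⋃ e v| ≤ |V|`, `∑ (4 - dg v) = 3 |V| - ∑ (dg v - 1)`. -/
def Stmt_LO3 : Prop :=
  ∀ {V : Type} [Fintype V] [DecidableEq V] (G : SimpleGraph V),
    (∀ v, 1 ≤ dg G v ∧ dg G v ≤ 3) →
    ∑ v, (dg G v - 1) + 4 * gammaT G ≤ 4 * Fintype.card V

/-- TWO (180 lines; uses LO3 LOS). Let `E = ∑ (dg v - 1)`; the sum of the degrees is `|V| + E` and even (as in LOS), so `E` is even.
If `E ≥ 5`: LO3. If all degrees are `≤ 2`: LOS (third part). Now let `dg v = 3`, `E ≤ 4`, and `x1, x2, x3` the neighbours of `v`. It is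
enough to find a set `R` of two vertices such that every vertex has a neighbour outside `R` (`univ \ R` is a total dominating set). Call
`x` needed if some `u ≠ v` has the only neighbour `x`. (a) Two of the `x_i`, say `x ≠ y`, are not needed: `R = {x, y}`: `v` has the
third neighbour; if `u ≠ v` had only neighbours in `R` then its neighbours would be exactly `x` and `y`, so `u`, `x`, `y` (`x` and
`y` are adjacent to `u` and `v`) have degree `≥ 2`, `E ≥ 2 + 1 + 1 + 1`. (b) Otherwise two of them, say `x ≠ y`, are needed; let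
`x'`, `y'` be such vertices `u` for `x`, `y`. `x` is adjacent to `v` and `x'`, `y` to `v` and `y'`: degrees `≥ 2`, so `E = 4` and all other
vertices except `v` have degree 1, in particular the third neighbour `z` of `v` (only neighbour `v`). `R = {x', z}` (`x' ≠ z`): a
neighbour of `x'` is `x`, a neighbour of `z` is `v`; `x` has the neighbour `v ∉ R`, `v` has the neighbour `y ∉ R` (`y` has degree `≥ 2`,
`x'` and `z` have degree 1). -/
def Stmt_TWO : Prop :=
  ∀ {V : Type} [Fintype V] [DecidableEq V] (G : SimpleGraph V),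
    (∀ v, 1 ≤ dg G v ∧ dg G v ≤ 3) → Even (Fintype.card V) → (∃ v, 2 ≤ dg G v) →
    gammaT G + 2 ≤ Fintype.card V

/-- OPT3 (100 lines), real numbers. `n = 4 s`, `x = 1 - 2/n`. Claim: `g j / n ≤ x ^ (e j / 8)` (real power). `e j = 0`: `g j ≤ n`. `e j > 0`:
`l = n - g j ≥ 2` and `e j ≤ 4 l`; `1 - l/n ≤ (1 - 2/n) ^ (l/2)` (Bernoulli with the exponent `l/2 ≥ 1`:
`one_add_mul_self_le_rpow_one_add` or a variant, `s = -2/n`), and `l/2 ≥ e j / 8`, `0 < x ≤ 1`. Product:
`∏ g j ≤ n^(n-3) x^(2n/8) = n^(n-3) x^s = n^(3s-3) (n - 2)^s` (`4 s - 3 = 3 s - 3 + s`). -/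
def Stmt_OPT3 : Prop :=
  ∀ (s : ℕ) (e g : Fin (4 * s - 3) → ℕ), 2 ≤ s → (∀ j, e j + 4 * g j ≤ 4 * (4 * s)) →
    (∀ j, 0 < e j → g j + 2 ≤ 4 * s) → ∑ j, e j = 2 * (4 * s) →
    ∏ j, g j ≤ (4 * s) ^ (3 * s - 3) * (4 * s - 2) ^ s

/-- UPT (100 lines; uses LO3 TWO OPT3; model `MP_1ce445_ex/UPE.lean`). `P_le`; for a factorization `G : Fin (n-3) → SimpleGraph (Fin n)`,
`n = 4 s`, and a vertex `v`: `∑ j, dg (G j) v = n - 1` (`sum_degree`), all terms are `≥ 1`, so `∑ j, (dg (G j) v - 1) = 2` and all are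
`≤ 3`. OPT3 with `e j = ∑ v, (dg (G j) v - 1)`, `g j = gammaT (G j)`; `∑ j, e j = 2 n`; `e j > 0` means that some degree is `≥ 2`. -/
def Stmt_UPT : Prop :=
  ∀ s : ℕ, 2 ≤ s → P (4 * s) (4 * s - 3) ≤ (4 * s) ^ (3 * s - 3) * (4 * s - 2) ^ s

/-! ### Lower bound -/

/-- LSQ (150 lines): idempotent Latin squares. `s` odd: on `ZMod s`, `L t i = 2 t - i`. `s` even: `q = s - 1 ≥ 3` odd, `w = 1/2` in
`ZMod q`, on `Option (ZMod q)`: `L (some t) (some i) = some (2 t - i)` if `i ≠ t - w`, `L (some t) (some (t - w)) = none`,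
`L (some t) none = some (t + w)`, `L none (some i) = some (i + 1)`, `L none none = none`. (`L (some t)` is a permutation:
`2 t - (t - w) = t + w`; `t ≠ t - w`. Injective in `t`: for `i = some i`: the value for `t = i + w` is `none`, it would be `i + 1`,
and this is the value of `L none`.) Transport to `Fin s` by any bijection. -/
def Stmt_LSQ : Prop :=
  ∀ s : ℕ, 3 ≤ s → ∃ L : Fin s → Equiv.Perm (Fin s), (∀ t, L t t = t) ∧
    ∀ i, Function.Injective (fun t => L t i)

/-- OFB (150 lines): the one-factorization of the complete graph on `2 s` points, one class of which is the set of the pairs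
`{(i, false), (i, true)}`; the `2 s - 2` other classes. `q = 2 s - 1` odd, points `Option (ZMod q)`, classes `c : ZMod q`:
`some x ↦ some (c - x)` if `x + x ≠ c`, `some x ↦ none` if `x + x = c`, `none ↦ some (c/2)`. Class `0`: `x ↦ -x`, `0 ↔ none`. Bijection of the points with
`Fin s × Bool`: `(0, false) ↦ some 0`, `(0, true) ↦ none`, `(i, false) ↦ some i`, `(i, true) ↦ some (-i)` for `1 ≤ i < s`; the
classes `c ≠ 0` are indexed by `Fin (2 s - 2)` (`c = j + 1`). A pair in different blocks is not in the class 0. -/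
def Stmt_OFB : Prop :=
  ∀ s : ℕ, 2 ≤ s → ∃ f : Fin (2 * s - 2) → Fin s × Bool → Fin s × Bool,
    (∀ c v, f c (f c v) = v) ∧ (∀ c v, (f c v).1 ≠ v.1) ∧ (∀ c c' v, f c v = f c' v → c = c') ∧
    ∀ v w, v.1 ≠ w.1 → ∃ c, f c v = w

/-- KDT (200 lines; uses LSQ OFB). `V = (Fin s × Bool) ⊕ (Fin s × Bool)`, `blk` = the index in `Fin s`, `Sp v w ↔ v ≠ w ∧ blk v = blk w`.
`μ (inl c)` = `f c` on both sides. `μ (inr d) (inl (i, b)) = inr (i + (d + 1), !b)`, `μ (inr d) (inr (j, b)) = inl (j - (d + 1), !b)`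
(addition modulo `s`, `d + 1 = 1, ..., s - 1`). `ν t (inl (i, b)) = inr (L t i, b)`, `ν t (inr (j, b)) = inl ((L t)⁻¹ j, b)`. Fields:
`nu_blk`: `L t i ≠ t` for `i ≠ t`; `cov`: cross pair `(i, b), (j, b')` with `i ≠ j`: `b' = b`: `t ↦ L t i` is a bijection, so
`L t i = j` for some `t`, `t ≠ i` as `L i i = i`; `b' ≠ b`: `j = i + (d + 1)`. `d2`: injectivity in `t`. `d3`: `b` against `!b`. `d5`: `L t i ≠ i`
for `t ≠ i` (`L i i = i` and injectivity in `t`). `loss`: the block has 4 points; if `|R| ≥ 3` then there is a point `v` of the block such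
that the three others are in `R`. -/
def Stmt_KDT : Prop :=
  ∀ s : ℕ, 3 ≤ s → ∃ (blk : (Fin s × Bool) ⊕ (Fin s × Bool) → Fin s)
    (Sp : (Fin s × Bool) ⊕ (Fin s × Bool) → (Fin s × Bool) ⊕ (Fin s × Bool) → Prop)
    (μ : Fin (2 * s - 2) ⊕ Fin (s - 1) → (Fin s × Bool) ⊕ (Fin s × Bool) →
      (Fin s × Bool) ⊕ (Fin s × Bool))
    (ν : Fin s → (Fin s × Bool) ⊕ (Fin s × Bool) → (Fin s × Bool) ⊕ (Fin s × Bool)),
    Pool.Agent.Work.MP_1ce445_ex.Dat blk Sp μ ν (fun _ => 2)

/-- LOT (50 lines; uses ASM KDT): `|V| = 4 s`, `|I| = 3 s - 3`, `|I| + s = 4 s - 3`. -/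
def Stmt_LOT : Prop :=
  ∀ s : ℕ, 3 ≤ s → (4 * s) ^ (3 * s - 3) * (4 * s - 2) ^ s ≤ P (4 * s) (4 * s - 3)

/-- EN3 (20 lines; uses UPT LOT). -/
def Stmt_EN3 : Prop :=
  ∀ n : ℕ, n % 4 = 0 → 12 ≤ n → P n (n - 3) = n ^ (n - 3 - n / 4) * (n - 2) ^ (n / 4)

end Pool.Agent.Work.MP_1ce445_n3
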